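import Mathlib

/-!
The group `G = ⟨x, t, z | [z, t⁻ⁿ x tⁿ] = 1, n ≥ 0⟩` as a semidirect product of two free groups.
-/

set_option autoImplicit false

namespace Pool.Agent.Lib.MP_7ddd63_al

theorem free_rel2 {α : Type} (u v : FreeGroup α) (h : Commute u v) :
    ∃ m n : ℤ, (m ≠ 0 ∨ n ≠ 0) ∧ u ^ m * v ^ n = 1 := by
  classical
  let S : Subgroup (FreeGroup α) := Subgroup.closure {u, v}
  have hu : u ∈ S := Subgroup.subset_closure (by simp)
  have hv : v ∈ S := Subgroup.subset_closure (by simp)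
  have hcomm : ∀ a ∈ S, ∀ b ∈ S, a * b = b * a := by
    intro a ha b hb
    have h1 : ∀ s ∈ ({u, v} : Set (FreeGroup α)), ∀ b ∈ S, Commute s b := by
      intro s hs b hb
      refine Subgroup.closure_induction (p := fun b _ => Commute s b) ?_ ?_ ?_ ?_ hb
      · intro y hy
        rcases hs with rfl | rfl <;> rcases hy with rfl | rfl
        · exact Commute.refl _
        · exact h
        · exact h.symm
        · exact Commute.refl _
      · exact Commute.one_right _
      · intro y z _ _ hy hz; exact hy.mul_right hz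
      · intro y _ hy; exact hy.inv_right
    refine Subgroup.closure_induction (p := fun a _ => Commute a b) ?_ ?_ ?_ ?_ ha
    · intro y hy; exact h1 y hy b hb
    · exact Commute.one_left _
    · intro y z _ _ hy hz; exact hy.mul_left hz
    · intro y _ hy; exact hy.inv_left
  have hsub : Subsingleton (IsFreeGroup.Generators S) := by
    refine ⟨fun i j => ?_⟩
    by_contra hij
    let f : IsFreeGroup.Generators S → Equiv.Perm (Fin 3) :=
      fun k => if k = i then Equiv.swap 0 1 else Equiv.swap 1 2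
    have h1 : (IsFreeGroup.of i : S) * IsFreeGroup.of j = IsFreeGroup.of j * IsFreeGroup.of i :=
      Subtype.ext (hcomm _ (IsFreeGroup.of i : S).2 _ (IsFreeGroup.of j : S).2)
    have h2 := congrArg (IsFreeGroup.lift f) h1
    simp only [map_mul, IsFreeGroup.lift_of, f, if_true, if_neg (Ne.symm hij)] at h2
    revert h2
    decide
  have hcyc : IsCyclic S := by
    rcases isEmpty_or_nonempty (IsFreeGroup.Generators S) with he | hn
    · have : Subsingleton S := (IsFreeGroup.toFreeGroup S).toEquiv.subsingleton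
      infer_instance
    · have : Unique (IsFreeGroup.Generators S) := uniqueOfSubsingleton hn.some
      exact isCyclic_of_surjective (IsFreeGroup.mulEquiv S) (IsFreeGroup.mulEquiv S).surjective
  obtain ⟨c, hc⟩ := hcyc.exists_generator
  obtain ⟨i, hi⟩ := Subgroup.mem_zpowers_iff.mp (hc ⟨u, hu⟩)
  obtain ⟨j, hj⟩ := Subgroup.mem_zpowers_iff.mp (hc ⟨v, hv⟩)
  have hi' : (c : FreeGroup α) ^ i = u := by simpa using congrArg Subtype.val hi
  have hj' : (c : FreeGroup α) ^ j = v := by simpa using congrArg Subtype.val hj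
  by_cases hi0 : i = 0
  · refine ⟨1, 0, Or.inl one_ne_zero, ?_⟩
    rw [← hi', hi0]; simp
  · refine ⟨j, -i, Or.inr (by simpa using hi0), ?_⟩
    rw [← hi', ← hj', ← zpow_mul, ← zpow_mul, ← zpow_add]
    have : i * j + j * -i = 0 := by ring
    rw [this, zpow_zero]

/-- free group on `x = of true`, `t = of false` -/
abbrev F2 := FreeGroup Bool

def xF : F2 := FreeGroup.of true
def tF : F2 := FreeGroup.of false

/-- the subgroup centralised by `z` -/
def HF : Subgroup F2 := Subgroup.closure (Set.range fun n : ℕ => tF⁻¹ ^ n * xF * tF ^ n)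

abbrev QF := F2 ⧸ HF

def act : F2 →* MulAut (FreeGroup QF) where
  toFun g := FreeGroup.freeGroupCongr (MulAction.toPerm g)
  map_one' := by
    apply MulEquiv.toMonoidHom_injective
    ext q
    simp
  map_mul' g h := by
    apply MulEquiv.toMonoidHom_injective
    ext q
    simp [mul_smul]

@[simp] theorem act_of (g : F2) (q : QF) : act g (FreeGroup.of q) = FreeGroup.of (g • q) := by
  simp [act]

abbrev GB := SemidirectProduct (FreeGroup QF) F2 act

def xG : GB := SemidirectProduct.inr xF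
def tG : GB := SemidirectProduct.inr tF
def zG : GB := SemidirectProduct.inl (FreeGroup.of ((1 : F2) : QF))

theorem comm_inr_iff (g : F2) : Commute zG (SemidirectProduct.inr g) ↔ g ∈ HF := by
  have h1 : Commute zG (SemidirectProduct.inr g) ↔
      (SemidirectProduct.inr g : GB) * zG * SemidirectProduct.inr g⁻¹ = zG := by
    rw [map_inv, mul_inv_eq_iff_eq_mul]
    exact ⟨fun h => h.eq.symm, fun h => h.symm⟩
  rw [h1, zG, ← SemidirectProduct.inl_aut, SemidirectProduct.inl_inj, act_of,
    FreeGroup.of_injective.eq_iff, MulAction.Quotient.smul_mk, QuotientGroup.eq]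
  simp

theorem G_comm (n : ℕ) : Commute zG (tG⁻¹ ^ n * xG * tG ^ n) := by
  have : tG⁻¹ ^ n * xG * tG ^ n = SemidirectProduct.inr (tF⁻¹ ^ n * xF * tF ^ n) := by
    simp [tG, xG]
  rw [this, comm_inr_iff]
  exact Subgroup.subset_closure ⟨n, rfl⟩

/-- shift of the lamp position -/
def shiftP : Equiv.Perm (ℤ × Bool) where
  toFun s := (s.1 + 1, s.2)
  invFun s := (s.1 - 1, s.2)
  left_inv s := by simp
  right_inv s := by simp

def flipP : Equiv.Perm (ℤ × Bool) := Equiv.swap (0, false) (0, true)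

def lamp : F2 →* Equiv.Perm (ℤ × Bool) := FreeGroup.lift (fun b => if b then flipP else shiftP)

theorem shift_pow (n : ℕ) (s : ℤ × Bool) : (shiftP ^ n) s = (s.1 + n, s.2) := by
  induction n with
  | zero => simp
  | succ n ih => rw [pow_succ', Equiv.Perm.mul_apply, ih]; simp [shiftP, add_assoc]

theorem not_mem_HF : tF * xF * tF⁻¹ ∉ HF := by
  intro h
  have key : ∀ g ∈ HF, lamp g (1, false) = (1, false) := by
    intro g hg
    refine Subgroup.closure_induction (p := fun g _ => lamp g (1, false) = (1, false))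
      ?_ ?_ ?_ ?_ hg
    · rintro _ ⟨n, rfl⟩
      have h1 : lamp (tF⁻¹ ^ n * xF * tF ^ n) = (shiftP ^ n)⁻¹ * flipP * shiftP ^ n := by
        simp [lamp, tF, xF]
      rw [h1, Equiv.Perm.mul_apply, Equiv.Perm.mul_apply, Equiv.Perm.inv_eq_iff_eq, shift_pow]
      apply Equiv.swap_apply_of_ne_of_ne
      · intro h; have := congrArg Prod.fst h; simp at this; omega
      · intro h; have := congrArg Prod.fst h; simp at this; omega
    · simp
    · intro a b _ _ ha hb; rw [map_mul, Equiv.Perm.mul_apply, hb, ha]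
    · intro a _ ha; rw [map_inv, Equiv.Perm.inv_eq_iff_eq, ha]
  have h2 := key _ h
  have h3 : lamp (tF * xF * tF⁻¹) = shiftP * flipP * shiftP⁻¹ := by simp [lamp, tF, xF]
  rw [h3] at h2
  have h4 : shiftP⁻¹ (1, false) = (0, false) := by
    rw [Equiv.Perm.inv_eq_iff_eq]; simp [shiftP]
  rw [Equiv.Perm.mul_apply, Equiv.Perm.mul_apply, h4] at h2
  simp [flipP, shiftP] at h2

theorem G_not_comm : ¬ Commute zG (tG * xG * tG⁻¹) := by
  have : tG * xG * tG⁻¹ = SemidirectProduct.inr (tF * xF * tF⁻¹) := by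
    simp [tG, xG]
  rw [this, comm_inr_iff]
  exact not_mem_HF

theorem G_lift {D : Type} [Group D] (x t z : D)
    (h : ∀ n : ℕ, Commute z (t⁻¹ ^ n * x * t ^ n)) :
    ∃ Θ : GB →* D, Θ xG = x ∧ Θ tG = t ∧ Θ zG = z := by
  let f2 : F2 →* D := FreeGroup.lift (fun b => if b then x else t)
  have hx : f2 xF = x := by simp [f2, xF]
  have ht : f2 tF = t := by simp [f2, tF]
  have hH : ∀ g ∈ HF, Commute z (f2 g) := by
    intro g hg
    refine Subgroup.closure_induction (p := fun g _ => Commute z (f2 g)) ?_ ?_ ?_ ?_ hg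
    · rintro _ ⟨n, rfl⟩
      simpa [hx, ht] using h n
    · simp
    · intro a b _ _ ha hb; rw [map_mul]; exact ha.mul_right hb
    · intro a _ ha; rw [map_inv]; exact ha.inv_right
  let c : QF → D := Quotient.lift (fun g : F2 => f2 g * z * (f2 g)⁻¹) (by
    intro a b hab
    have h1 : a⁻¹ * b ∈ HF := QuotientGroup.leftRel_apply.mp hab
    have h2 := (hH _ h1).eq
    rw [map_mul, map_inv] at h2
    show f2 a * z * (f2 a)⁻¹ = f2 b * z * (f2 b)⁻¹
    calc f2 a * z * (f2 a)⁻¹ = f2 a * (z * ((f2 a)⁻¹ * f2 b)) * (f2 b)⁻¹ := by group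
      _ = f2 a * (((f2 a)⁻¹ * f2 b) * z) * (f2 b)⁻¹ := by rw [h2]
      _ = f2 b * z * (f2 b)⁻¹ := by group)
  have hc : ∀ g : F2, c (g : QF) = f2 g * z * (f2 g)⁻¹ := fun g => rfl
  let f1 : FreeGroup QF →* D := FreeGroup.lift c
  have hcompat : ∀ g : F2, f1.comp (act g).toMonoidHom =
      (MulAut.conj (f2 g)).toMonoidHom.comp f1 := by
    intro g
    ext q
    induction q using QuotientGroup.induction_on with
    | H a =>
      have : g • (a : QF) = ((g * a : F2) : QF) := rfl
      simp [f1, this, hc, mul_assoc]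
  refine ⟨SemidirectProduct.lift f1 f2 hcompat, ?_, ?_, ?_⟩
  · simp [xG, hx]
  · simp [tG, ht]
  · simp [zG, f1, hc]

theorem G_no_rank4 (j : Multiplicative (ℤ →₀ ℤ) →* GB) : ¬ Function.Injective j := by
  intro hj
  let e : ℤ → Multiplicative (ℤ →₀ ℤ) := fun i => Multiplicative.ofAdd (Finsupp.single i 1)
  let π : Multiplicative (ℤ →₀ ℤ) →* F2 := SemidirectProduct.rightHom.comp j
  obtain ⟨m, n, hmn, h1⟩ := free_rel2 (π (e 0)) (π (e 1)) ((Commute.all _ _).map π)
  obtain ⟨m', n', hmn', h2⟩ := free_rel2 (π (e 2)) (π (e 3)) ((Commute.all _ _).map π)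
  have k1 : j (e 0 ^ m * e 1 ^ n) ∈ (SemidirectProduct.inl : FreeGroup QF →* GB).range := by
    rw [SemidirectProduct.range_inl_eq_ker_rightHom, MonoidHom.mem_ker]
    have : π (e 0 ^ m * e 1 ^ n) = 1 := by rw [map_mul, map_zpow, map_zpow, h1]
    exact this
  have k2 : j (e 2 ^ m' * e 3 ^ n') ∈ (SemidirectProduct.inl : FreeGroup QF →* GB).range := by
    rw [SemidirectProduct.range_inl_eq_ker_rightHom, MonoidHom.mem_ker]
    have : π (e 2 ^ m' * e 3 ^ n') = 1 := by rw [map_mul, map_zpow, map_zpow, h2]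
    exact this
  obtain ⟨a1, ha1⟩ := k1
  obtain ⟨a2, ha2⟩ := k2
  have hc : Commute a1 a2 := by
    apply SemidirectProduct.inl_injective (φ := act)
    rw [map_mul, map_mul, ha1, ha2]
    exact ((Commute.all _ _).map j).eq
  obtain ⟨r, s, hrs, h3⟩ := free_rel2 a1 a2 hc
  have h4 : (e 0 ^ m * e 1 ^ n) ^ r * (e 2 ^ m' * e 3 ^ n') ^ s = 1 := by
    apply hj
    rw [map_mul, map_zpow, map_zpow, ← ha1, ← ha2, ← map_zpow, ← map_zpow, ← map_mul, h3]
    simp
  have h5 := congrArg Multiplicative.toAdd h4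
  simp only [e, toAdd_mul, toAdd_zpow, toAdd_ofAdd, toAdd_one] at h5
  have c0 := DFunLike.congr_fun h5 0
  have c1 := DFunLike.congr_fun h5 1
  have c2 := DFunLike.congr_fun h5 2
  have c3 := DFunLike.congr_fun h5 3
  simp at c0 c1 c2 c3
  omega

end Pool.Agent.Lib.MP_7ddd63_al
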