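import Mathlib

set_option autoImplicit false

namespace Pool.Agent.Lib.MP_7ddd63_al.H

open CategoryTheory

/-- Vertices of the Squier complex of the presentation with relation set `R`: words. -/
structure Word {A : Type} (R : Set (List A × List A)) : Type where
  w : List A

/-- Edges of the Squier complex: for words `x, y` and a relation `(u, v)` one edge, labelled
`(x, (u, v), y)`, from `x u y` to `x v y`. -/
instance squier {A : Type} (R : Set (List A × List A)) : Quiver (Word R) where
  Hom a b := {e : List A × (List A × List A) × List A //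
    e.2.1 ∈ R ∧ a.w = e.1 ++ e.2.1.1 ++ e.2.2 ∧ b.w = e.1 ++ e.2.1.2 ++ e.2.2}

/-- The squares: the two ways of applying two relations to disjoint subwords of
`x u₁ y u₂ z` are identified. -/
inductive Square {A : Type} (R : Set (List A × List A)) : HomRel (Quiver.FreeGroupoid (Word R))
  | mk {a b c d : Word R} (e₁ : a ⟶ b) (e₂ : b ⟶ d) (f₁ : a ⟶ c) (f₂ : c ⟶ d)
      (x u₁ v₁ y u₂ v₂ z : List A) :
      e₁.1 = (x, (u₁, v₁), y ++ u₂ ++ z) → e₂.1 = (x ++ v₁ ++ y, (u₂, v₂), z) →
      f₁.1 = (x ++ u₁ ++ y, (u₂, v₂), z) → f₂.1 = (x, (u₁, v₁), y ++ v₂ ++ z) →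
      Square R ((Quiver.FreeGroupoid.of (Word R)).map e₁ ≫ (Quiver.FreeGroupoid.of (Word R)).map e₂)
        ((Quiver.FreeGroupoid.of (Word R)).map f₁ ≫ (Quiver.FreeGroupoid.of (Word R)).map f₂)

/-- The diagram group: the vertex group at `w` of the fundamental groupoid of the Squier complex,
that is of the free groupoid on its edges modulo its squares. -/
abbrev DiagramGroup {A : Type} (R : Set (List A × List A)) (w : List A) : Type :=
  End ((Quotient.functor (Square R)).obj ((Quiver.FreeGroupoid.of (Word R)).obj ⟨w⟩))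

/-- The right-angled Artin group of a simplicial graph. -/
abbrev Raag {V : Type} (Γ : SimpleGraph V) : Type :=
  PresentedGroup {r : FreeGroup V | ∃ s t, Γ.Adj s t ∧
    r = FreeGroup.of s * FreeGroup.of t * (FreeGroup.of s)⁻¹ * (FreeGroup.of t)⁻¹}

/-- The restricted wreath product of two infinite cyclic groups. -/
abbrev ZwrZ : Type :=
  SemidirectProduct (Multiplicative (ℤ →₀ ℤ)) (Multiplicative ℤ)
    (zpowersHom (MulAut (Multiplicative (ℤ →₀ ℤ)))
      (AddEquiv.toMultiplicative
        (Finsupp.domCongr (Equiv.addRight (1 : ℤ)) : (ℤ →₀ ℤ) ≃+ (ℤ →₀ ℤ))))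

end Pool.Agent.Lib.MP_7ddd63_al.H
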