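import Pool.Agent.Lib.MP_7ddd63_al.Main
import Pool.Agent.Lib.MP_7ddd63_al.HDefs

set_option autoImplicit false

namespace Pool.Agent.Lib.MP_7ddd63_al.H

open CategoryTheory Pool.Agent.Lib.MP_7ddd63_al

abbrev Q := CategoryTheory.Quotient (Square RR)

abbrev ob (u : Wd) : Q :=
  (Quotient.functor (Square RR)).obj ((Quiver.FreeGroupoid.of (Word RR)).obj ⟨u⟩)

abbrev pos {u v : Wd} (e : (⟨u⟩ : Word RR) ⟶ ⟨v⟩) : ob u ⟶ ob v :=
  (Quotient.functor (Square RR)).map ((Quiver.FreeGroupoid.of (Word RR)).map e)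

inductive Rep : (u : Wd) → List E → (v : Wd) → (ob u ⟶ ob v) → Prop
  | nil (u : Wd) : Rep u [] u (𝟙 _)
  | pos {u u' v : Wd} {l : List E} {g : ob u' ⟶ ob v} (e : (⟨u⟩ : Word RR) ⟶ ⟨u'⟩) :
      Rep u' l v g → Rep u ((e.1.1, e.1.2.1, e.1.2.2, true) :: l) v (pos e ≫ g)
  | neg {u u' v : Wd} {l : List E} {g : ob u' ⟶ ob v} (e : (⟨u'⟩ : Word RR) ⟶ ⟨u⟩) :
      Rep u' l v g → Rep u ((e.1.1, e.1.2.1, e.1.2.2, false) :: l) v (inv (pos e) ≫ g)

theorem Rep.pth {u v : Wd} {l : List E} {g : ob u ⟶ ob v} (h : Rep u l v g) : Pth u l v := by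
  induction h with
  | nil u => exact Pth.nil u
  | pos e _ ih =>
    obtain ⟨⟨x, r, y⟩, h1, h2, h3⟩ := e
    dsimp only at h2 h3
    subst h2 h3
    exact Pth.cons h1 rfl ih
  | neg e _ ih =>
    obtain ⟨⟨x, r, y⟩, h1, h2, h3⟩ := e
    dsimp only at h2 h3
    subst h2 h3
    exact Pth.cons h1 rfl ih

theorem rep_ex {u v : Wd} {l : List E} (h : Pth u l v) : ∃ g, Rep u l v g := by
  induction h with
  | nil u => exact ⟨_, Rep.nil u⟩
  | @cons u v e l h1 h2 _ ih =>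
    obtain ⟨g, hg⟩ := ih
    obtain ⟨x, r, y, c⟩ := e
    subst h2
    cases c
    · exact ⟨_, Rep.neg (u := src (x, r, y, false)) ⟨(x, r, y), h1, rfl, rfl⟩ hg⟩
    · exact ⟨_, Rep.pos (u := src (x, r, y, true)) ⟨(x, r, y), h1, rfl, rfl⟩ hg⟩

theorem Rep.append {u v w : Wd} {l l' : List E} {g : ob u ⟶ ob v} {g' : ob v ⟶ ob w}
    (h : Rep u l v g) (h' : Rep v l' w g') : Rep u (l ++ l') w (g ≫ g') := by
  induction h with
  | nil u => simpa using h'
  | pos e _ ih => simpa using Rep.pos e (ih h')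
  | neg e _ ih => simpa using Rep.neg e (ih h')

theorem Rep.nil_inv {u v : Wd} {g : ob u ⟶ ob v} (h : Rep u [] v g) :
    ∃ h : u = v, g = eqToHom (by rw [h]) := by
  generalize hl : ([] : List E) = l at h
  cases h with
  | nil => exact ⟨rfl, rfl⟩
  | pos => simp at hl
  | neg => simp at hl

theorem Rep.pos_inv {u v x y : Wd} {r : Wd × Wd} {l : List E} {g : ob u ⟶ ob v}
    (h : Rep u ((x, r, y, true) :: l) v g) :
    ∃ (u' : Wd) (e : (⟨u⟩ : Word RR) ⟶ ⟨u'⟩) (g' : ob u' ⟶ ob v),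
      e.1 = (x, r, y) ∧ Rep u' l v g' ∧ g = H.pos e ≫ g' := by
  generalize hl : ((x, r, y, true) :: l : List E) = l' at h
  cases h with
  | nil => simp at hl
  | pos e h =>
    simp only [List.cons.injEq, Prod.mk.injEq] at hl
    obtain ⟨⟨h1, h2, h3, -⟩, rfl⟩ := hl
    exact ⟨_, e, _, by rw [h1, h2, h3], h, rfl⟩
  | neg => simp at hl

theorem Rep.neg_inv {u v x y : Wd} {r : Wd × Wd} {l : List E} {g : ob u ⟶ ob v}
    (h : Rep u ((x, r, y, false) :: l) v g) :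
    ∃ (u' : Wd) (e : (⟨u'⟩ : Word RR) ⟶ ⟨u⟩) (g' : ob u' ⟶ ob v),
      e.1 = (x, r, y) ∧ Rep u' l v g' ∧ g = inv (H.pos e) ≫ g' := by
  generalize hl : ((x, r, y, false) :: l : List E) = l' at h
  cases h with
  | nil => simp at hl
  | pos => simp at hl
  | neg e h =>
    simp only [List.cons.injEq, Prod.mk.injEq] at hl
    obtain ⟨⟨h1, h2, h3, -⟩, rfl⟩ := hl
    exact ⟨_, e, _, by rw [h1, h2, h3], h, rfl⟩

theorem tgt_eq {a b b' : Wd} (e : (⟨a⟩ : Word RR) ⟶ ⟨b⟩) (e' : (⟨a⟩ : Word RR) ⟶ ⟨b'⟩)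
    (h : e.1 = e'.1) : b = b' := by
  have h1 : b = _ := e.2.2.2
  have h2 : b' = _ := e'.2.2.2
  rw [h1, h2, h]

theorem src_eq {a a' b b' : Wd} (e : (⟨a⟩ : Word RR) ⟶ ⟨b⟩) (e' : (⟨a'⟩ : Word RR) ⟶ ⟨b'⟩)
    (h : e.1 = e'.1) : a = a' := by
  have h1 : a = _ := e.2.2.1
  have h2 : a' = _ := e'.2.2.1
  rw [h1, h2, h]

theorem Rep.uniq {l : List E} : ∀ {u v : Wd} {g g' : ob u ⟶ ob v},
    Rep u l v g → Rep u l v g' → g = g' := by
  induction l with
  | nil =>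
    intro u v g g' h h'
    obtain ⟨rfl, rfl⟩ := h.nil_inv
    obtain ⟨_, rfl⟩ := h'.nil_inv
    rfl
  | cons e l ih =>
    intro u v g g' h h'
    obtain ⟨x, r, y, c⟩ := e
    cases c
    · obtain ⟨a, e, k, h1, h2, rfl⟩ := h.neg_inv
      obtain ⟨a', e', k', h1', h2', rfl⟩ := h'.neg_inv
      obtain rfl := src_eq e e' (h1.trans h1'.symm)
      obtain rfl : e = e' := Subtype.ext (h1.trans h1'.symm)
      rw [ih h2 h2']
    · obtain ⟨a, e, k, h1, h2, rfl⟩ := h.pos_inv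
      obtain ⟨a', e', k', h1', h2', rfl⟩ := h'.pos_inv
      obtain rfl := tgt_eq e e' (h1.trans h1'.symm)
      obtain rfl : e = e' := Subtype.ext (h1.trans h1'.symm)
      rw [ih h2 h2']

theorem Rep.split {l l' : List E} : ∀ {u w : Wd} {g : ob u ⟶ ob w}, Rep u (l ++ l') w g →
    ∃ (v : Wd) (g₁ : ob u ⟶ ob v) (g₂ : ob v ⟶ ob w),
      Rep u l v g₁ ∧ Rep v l' w g₂ ∧ g = g₁ ≫ g₂ := by
  induction l with
  | nil => exact fun h => ⟨_, _, _, Rep.nil _, h, by simp⟩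
  | cons e l ih =>
    intro u w g h
    obtain ⟨x, r, y, c⟩ := e
    cases c
    · obtain ⟨a, e, k, h1, h2, rfl⟩ := Rep.neg_inv h
      obtain ⟨v, g1, g2, h3, h4, rfl⟩ := ih h2
      have := Rep.neg e h3
      rw [h1] at this
      exact ⟨v, _, _, this, h4, by simp⟩
    · obtain ⟨a, e, k, h1, h2, rfl⟩ := Rep.pos_inv h
      obtain ⟨v, g1, g2, h3, h4, rfl⟩ := ih h2
      have := Rep.pos e h3
      rw [h1] at this
      exact ⟨v, _, _, this, h4, by simp⟩

theorem Rep.mv {u v : Wd} {a b : List E} {g g' : ob u ⟶ ob v} (h : Rep u a v g)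
    (h' : Rep u b v g') (m : Mv a b) : g = g' := by
  rcases m with ⟨p, q, x, s, t, y, c, rfl, rfl⟩ | ⟨p, q, x, u₁, v₁, y, u₂, v₂, z, rfl, rfl⟩
  · obtain ⟨v2, g12, g3, h12, h3, rfl⟩ := h'.split
    obtain ⟨v1, g1, g2, h1, h2, rfl⟩ := h12.split
    cases c
    · obtain ⟨a, e, k, k1, k2, rfl⟩ := Rep.neg_inv h2
      obtain ⟨a', e', k', k1', k2', rfl⟩ := Rep.pos_inv k2
      obtain ⟨rfl, rfl⟩ := k2'.nil_inv
      obtain rfl := tgt_eq e e' (k1.trans k1'.symm)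
      obtain rfl : e = e' := Subtype.ext (k1.trans k1'.symm)
      simpa using h.uniq (h1.append h3)
    · obtain ⟨a, e, k, k1, k2, rfl⟩ := Rep.pos_inv h2
      obtain ⟨a', e', k', k1', k2', rfl⟩ := Rep.neg_inv k2
      obtain ⟨rfl, rfl⟩ := k2'.nil_inv
      obtain rfl := src_eq e e' (k1.trans k1'.symm)
      obtain rfl : e = e' := Subtype.ext (k1.trans k1'.symm)
      simpa using h.uniq (h1.append h3)
  · obtain ⟨v2, g12, g3, h12, h3, rfl⟩ := h.split
    obtain ⟨v1, g1, g2, h1, h2, rfl⟩ := h12.split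
    obtain ⟨w2, f12, f3, j12, j3, rfl⟩ := h'.split
    obtain ⟨w1, f1, f2, j1, j2, rfl⟩ := j12.split
    obtain ⟨a, e₁, k, k1, k2, rfl⟩ := Rep.pos_inv h2
    obtain ⟨a', e₂, k', k1', k2', rfl⟩ := Rep.pos_inv k2
    obtain ⟨rfl, rfl⟩ := k2'.nil_inv
    obtain ⟨b, f₁, n, n1, n2, rfl⟩ := Rep.pos_inv j2
    obtain ⟨b', f₂, n', n1', n2', rfl⟩ := Rep.pos_inv n2
    obtain ⟨rfl, rfl⟩ := n2'.nil_inv
    obtain rfl : v1 = w1 := by
      have a1 : v1 = _ := e₁.2.2.1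
      have a2 : w1 = _ := f₁.2.2.1
      rw [a1, a2, k1, n1]; simp
    obtain rfl : a' = b' := by
      have a1 : a' = _ := e₂.2.2.2
      have a2 : b' = _ := f₂.2.2.2
      rw [a1, a2, k1', n1']; simp
    have hs : H.pos e₁ ≫ H.pos e₂ = H.pos f₁ ≫ H.pos f₂ := by
      have := CategoryTheory.Quotient.sound (Square RR) (Square.mk e₁ e₂ f₁ f₂ x u₁ v₁ y u₂ v₂ z k1 k1' n1 n1')
      simpa only [Functor.map_comp] using this
    rw [h1.uniq j1, h3.uniq j3]
    simp [hs]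

theorem Rep.hty {u v : Wd} {a b : List E} (m : Hty u v a b) : ∀ g : ob u ⟶ ob v,
    Rep u a v g ↔ Rep u b v g := by
  induction m with
  | rel a b h =>
    intro g
    obtain ⟨ga, ha⟩ := rep_ex h.1
    obtain ⟨gb, hb⟩ := rep_ex h.2.1
    obtain rfl := ha.mv hb h.2.2
    exact ⟨fun k => k.uniq ha ▸ hb, fun k => k.uniq hb ▸ ha⟩
  | refl => exact fun _ => Iff.rfl
  | symm _ _ _ ih => exact fun g => (ih g).symm
  | trans _ _ _ _ _ ih1 ih2 => exact fun g => (ih1 g).trans (ih2 g)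

theorem rep_surj {u v : Wd} (g : ob u ⟶ ob v) : ∃ l, Rep u l v g := by
  obtain ⟨⟨p⟩⟩ := g
  have key : ∀ (b : Quiver.Symmetrify (Word RR))
      (p : Quiver.Path (V := Quiver.Symmetrify (Word RR)) (⟨u⟩ : Word RR) b),
      ∃ l, Rep u l (Word.w b) (Quot.mk _ (Quot.mk _ p)) := by
    intro b p
    induction p with
    | nil => exact ⟨[], Rep.nil u⟩
    | @cons b c p e ih =>
      obtain ⟨l, hl⟩ := ih
      rcases e with e | e
      · exact ⟨_, hl.append (Rep.pos (u := Word.w b) (u' := Word.w c) e (Rep.nil _))⟩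
      · have := hl.append (Rep.neg (u := Word.w b) (u' := Word.w c) e (Rep.nil _))
        rw [← Groupoid.inv_eq_inv] at this
        exact ⟨_, this⟩
  exact key _ p

noncomputable def phi0 : Word RR ⥤q SingleObj GB where
  obj _ := SingleObj.star GB
  map e := (psi (e.1.1, e.1.2.1, e.1.2.2, true))⁻¹

theorem lift_of {a b : Word RR} (e : a ⟶ b) :
    (Quiver.FreeGroupoid.lift phi0).map ((Quiver.FreeGroupoid.of (Word RR)).map e) =
      (psi (e.1.1, e.1.2.1, e.1.2.2, true))⁻¹ := by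
  have := Prefunctor.congr_hom (Quiver.FreeGroupoid.lift_spec phi0) e
  simpa [phi0] using this

noncomputable def Phi : Q ⥤ SingleObj GB :=
  CategoryTheory.Quotient.lift (Square RR) (Quiver.FreeGroupoid.lift phi0) (by
    rintro _ _ _ _ ⟨e₁, e₂, f₁, f₂, x, u₁, v₁, y, u₂, v₂, z, h1, h2, h3, h4⟩
    have r1 : (u₁, v₁) ∈ RR := by have := e₁.2.1; rwa [h1] at this
    have r2 : (u₂, v₂) ∈ RR := by have := e₂.2.1; rwa [h2] at this
    rw [Functor.map_comp, Functor.map_comp, lift_of, lift_of, lift_of, lift_of,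
      SingleObj.comp_as_mul, SingleObj.comp_as_mul, h1, h2, h3, h4]
    have := congrArg (fun g : GB => g⁻¹) (psi_square (x := x) (y := y) (z := z) r1 r2)
    simp only [mul_inv_rev] at this
    exact this)

theorem Phi_pos {u v : Wd} (e : (⟨u⟩ : Word RR) ⟶ ⟨v⟩) :
    Phi.map (pos e) = (psi (e.1.1, e.1.2.1, e.1.2.2, true))⁻¹ := lift_of e

theorem Rep.phi {u v : Wd} {l : List E} {g : ob u ⟶ ob v} (h : Rep u l v g) :
    Phi.map g = (Psi l)⁻¹ := by
  induction h with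
  | nil u => rw [Psi_nil, inv_one]; exact Phi.map_id _
  | pos e _ ih => rw [Functor.map_comp, ih, Phi_pos, SingleObj.comp_as_mul, Psi_cons, mul_inv_rev]
  | neg e _ ih =>
    rw [Functor.map_comp, ih, Functor.map_inv, SingleObj.inv_as_inv, Phi_pos,
      SingleObj.comp_as_mul, Psi_cons, mul_inv_rev]
    rfl

noncomputable def th0 (l : List E) (h : Pth [0, 1] l [0, 1]) : DiagramGroup RR [0, 1] :=
  (rep_ex h).choose

theorem th0_rep (l : List E) (h : Pth [0, 1] l [0, 1]) : Rep [0, 1] l [0, 1] (th0 l h) :=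
  (rep_ex h).choose_spec

noncomputable def th1 : DG → DiagramGroup RR [0, 1] :=
  Quotient.lift (fun a : Lp => th0 a.1 a.2) (fun a b h =>
    (((Rep.hty h _).1 (th0_rep a.1 a.2)).uniq (th0_rep b.1 b.2)))

theorem th1_mk (l : List E) (h : Pth [0, 1] l [0, 1]) : th1 (mkD l h) = th0 l h := rfl

noncomputable def th : DG →* DiagramGroup RR [0, 1] :=
  MonoidHom.mk' (fun g => (th1 g)⁻¹) (by
    intro a b
    obtain ⟨a, ha, rfl⟩ := a.ind
    obtain ⟨b, hb, rfl⟩ := b.ind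
    rw [← mul_inv_rev, mkD_mul, th1_mk, th1_mk, th1_mk]
    exact congrArg (fun g : DiagramGroup RR [0, 1] => g⁻¹)
      ((th0_rep _ (ha.append hb)).uniq ((th0_rep a ha).append (th0_rep b hb))))

theorem th_mk (l : List E) (h : Pth [0, 1] l [0, 1]) : th (mkD l h) = (th0 l h)⁻¹ := rfl

theorem th_bij : Function.Bijective th := by
  constructor
  · intro a b hab
    obtain ⟨a, ha, rfl⟩ := a.ind
    obtain ⟨b, hb, rfl⟩ := b.ind
    replace hab : th0 a ha = th0 b hb := inv_injective (G := DiagramGroup RR [0, 1]) hab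
    apply PsiD_injective
    have h1 := (th0_rep a ha).phi
    have h2 := (th0_rep b hb).phi
    rw [hab, h2] at h1
    rw [PsiD_mk, PsiD_mk]
    exact (inv_inj.1 h1).symm
  · intro g
    obtain ⟨l, hl⟩ := rep_surj (u := [0, 1]) (v := [0, 1]) (g⁻¹ : DiagramGroup RR [0, 1])
    refine ⟨mkD l hl.pth, ?_⟩
    have h : th0 l hl.pth = g⁻¹ := (th0_rep l hl.pth).uniq hl
    rw [th_mk, h]
    exact inv_inv g

theorem no_raag' (V : Type) (Γ : SimpleGraph V) (f : DiagramGroup RR [0, 1] →* Raag Γ) :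
    ¬ Function.Injective f := by
  intro hf
  let F : DG →* RAAG Γ := f.comp th
  have hinj : Function.Injective F := hf.comp th_bij.1
  have h3 := raag_backward Γ (F xD) (F zD) (F tD) (fun n => by
    simpa using (D_comm n).map F)
  apply D_not_comm
  apply hinj
  simpa using h3.eq

theorem no_wr' (g : ZwrZ →* DiagramGroup RR [0, 1]) : ¬ Function.Injective g := by
  intro hg
  let e := MulEquiv.ofBijective th th_bij
  exact G_no_rank4 (PsiD.comp (e.symm.toMonoidHom.comp (g.comp SemidirectProduct.inl)))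
    (PsiD_injective.comp (e.symm.injective.comp (hg.comp SemidirectProduct.inl_injective)))

end Pool.Agent.Lib.MP_7ddd63_al.H
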