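import Mathlib

/-!
Right-angled Artin groups are residually unipotent; consequence used for the counterexample.
-/

set_option autoImplicit false

namespace Pool.Agent.Lib.MP_7ddd63_al

section Raag

variable {V : Type} (Γ : SimpleGraph V)

/-- relators of the right-angled Artin group -/
def rels : Set (FreeGroup V) :=
  {r : FreeGroup V | ∃ s t, Γ.Adj s t ∧
    r = FreeGroup.of s * FreeGroup.of t * (FreeGroup.of s)⁻¹ * (FreeGroup.of t)⁻¹}

abbrev RAAG := PresentedGroup (rels Γ)

theorem raag_comm {a b : V} (h : Γ.Adj a b) :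
    Commute (PresentedGroup.of a : RAAG Γ) (PresentedGroup.of b) := by
  have h1 : PresentedGroup.mk (rels Γ)
      (FreeGroup.of a * FreeGroup.of b * (FreeGroup.of a)⁻¹ * (FreeGroup.of b)⁻¹) = 1 :=
    PresentedGroup.one_of_mem ⟨a, b, h, rfl⟩
  simp only [map_mul, map_inv] at h1
  have h2 : (PresentedGroup.of a : RAAG Γ) * PresentedGroup.of b * (PresentedGroup.of a)⁻¹ *
      (PresentedGroup.of b)⁻¹ = 1 := h1
  exact commutatorElement_eq_one_iff_commute.mp h2

/-- swapping two adjacent commuting letters -/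
def Swap (w w' : List V) : Prop :=
  ∃ p a b q, Γ.Adj a b ∧ w = p ++ a :: b :: q ∧ w' = p ++ b :: a :: q

theorem Swap.symm {w w' : List V} (h : Swap Γ w w') : Swap Γ w' w := by
  obtain ⟨p, a, b, q, hab, rfl, rfl⟩ := h
  exact ⟨p, b, a, q, hab.symm, rfl, rfl⟩

/-- a word that can be shuffled to contain a square -/
def Bad (w : List V) : Prop :=
  ∃ p v q, Relation.ReflTransGen (Swap Γ) w (p ++ v :: v :: q)

theorem bad_of_swap {w w' : List V} (h : Swap Γ w w') (hb : Bad Γ w') : Bad Γ w := by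
  obtain ⟨p, v, q, hr⟩ := hb
  exact ⟨p, v, q, Relation.ReflTransGen.head h hr⟩

/-- product of syllables -/
def sprod (l : List (V × ℤ)) : RAAG Γ :=
  (l.map (fun s => (PresentedGroup.of s.1 : RAAG Γ) ^ s.2)).prod

@[simp] theorem sprod_nil : sprod Γ [] = 1 := rfl
@[simp] theorem sprod_cons (s : V × ℤ) (l : List (V × ℤ)) :
    sprod Γ (s :: l) = (PresentedGroup.of s.1 : RAAG Γ) ^ s.2 * sprod Γ l := by
  simp [sprod]
@[simp] theorem sprod_append (l l' : List (V × ℤ)) :
    sprod Γ (l ++ l') = sprod Γ l * sprod Γ l' := by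
  simp [sprod]

theorem exists_sprod (g : RAAG Γ) : ∃ l, sprod Γ l = g := by
  obtain ⟨x, rfl⟩ := PresentedGroup.mk_surjective (rels Γ) g
  induction x using FreeGroup.induction_on with
  | C1 => exact ⟨[], by simp⟩
  | of x => exact ⟨[(x, 1)], by simp; rfl⟩
  | inv_of x _ => exact ⟨[(x, -1)], by rw [map_inv]; simp; rfl⟩
  | mul x y hx hy =>
    obtain ⟨l, hl⟩ := hx
    obtain ⟨l', hl'⟩ := hy
    exact ⟨l ++ l', by simp [hl, hl']⟩

theorem split2 {l : List (V × ℤ)} {p q : List V} {a b : V}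
    (h : l.map Prod.fst = p ++ a :: b :: q) :
    ∃ lp e f lq, l = lp ++ (a, e) :: (b, f) :: lq ∧ lp.map Prod.fst = p ∧ lq.map Prod.fst = q := by
  rw [List.map_eq_append_iff] at h
  obtain ⟨lp, l2, rfl, hp, h2⟩ := h
  rw [List.map_eq_cons_iff] at h2
  obtain ⟨⟨a', e⟩, l3, rfl, ha, h3⟩ := h2
  rw [List.map_eq_cons_iff] at h3
  obtain ⟨⟨b', f⟩, l4, rfl, hb, h4⟩ := h3
  simp only at ha hb
  subst ha hb
  exact ⟨lp, e, f, l4, rfl, hp, h4⟩

theorem lift_swaps {w w' : List V} (h : Relation.ReflTransGen (Swap Γ) w w') :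
    ∀ l : List (V × ℤ), l.map Prod.fst = w →
      ∃ l' : List (V × ℤ), l'.map Prod.fst = w' ∧ sprod Γ l' = sprod Γ l ∧
        l'.length = l.length := by
  induction h with
  | refl => intro l hl; exact ⟨l, hl, rfl, rfl⟩
  | tail _ hs ih =>
    intro l hl
    obtain ⟨l1, h1, h2, h3⟩ := ih l hl
    obtain ⟨p, a, b, q, hab, rfl, rfl⟩ := hs
    obtain ⟨lp, e, f, lq, rfl, hp, hq⟩ := split2 h1
    refine ⟨lp ++ (b, f) :: (a, e) :: lq, by simp [hp, hq], ?_, by simpa using h3⟩
    rw [← h2]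
    simp only [sprod_append, sprod_cons]
    have hc := ((raag_comm Γ hab).zpow_zpow e f).eq
    rw [← mul_assoc _ _ (sprod Γ lq), ← hc, mul_assoc]

theorem normal_form (g : RAAG Γ) :
    ∃ l : List (V × ℤ), sprod Γ l = g ∧ (∀ s ∈ l, s.2 ≠ 0) ∧ ¬ Bad Γ (l.map Prod.fst) := by
  have key : ∀ n : ℕ, ∀ l : List (V × ℤ), l.length = n →
      ∃ l' : List (V × ℤ), sprod Γ l' = sprod Γ l ∧ (∀ s ∈ l', s.2 ≠ 0) ∧
        ¬ Bad Γ (l'.map Prod.fst) := by
    intro n
    induction n using Nat.strong_induction_on with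
    | _ n ih =>
      intro l hl
      by_cases h0 : ∀ s ∈ l, s.2 ≠ 0
      · by_cases hb : Bad Γ (l.map Prod.fst)
        · obtain ⟨p, v, q, hr⟩ := hb
          obtain ⟨l1, h1, h2, h3⟩ := lift_swaps Γ hr l rfl
          obtain ⟨lp, e, f, lq, rfl, hp, hq⟩ := split2 h1
          obtain ⟨l', h4, h5, h6⟩ := ih (lp ++ (v, e + f) :: lq).length
            (by simp at h3 ⊢; omega) _ rfl
          refine ⟨l', ?_, h5, h6⟩
          rw [h4, ← h2]
          simp [zpow_add, mul_assoc]
        · exact ⟨l, rfl, h0, hb⟩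
      · push Not at h0
        obtain ⟨⟨v, e⟩, hs, he⟩ := h0
        simp only at he
        subst he
        obtain ⟨lp, lq, rfl⟩ := List.append_of_mem hs
        obtain ⟨l', h4, h5, h6⟩ := ih (lp ++ lq).length (by simp at hl ⊢; omega) _ rfl
        refine ⟨l', ?_, h5, h6⟩
        rw [h4]
        simp
  obtain ⟨l, rfl⟩ := exists_sprod Γ g
  exact key _ l rfl

/-- the module of test functions -/
def Mod (N : ℕ) : Submodule ℤ (List V → ℤ) where
  carrier := {f | (∀ p a b q, Γ.Adj a b → f (p ++ a :: b :: q) = f (p ++ b :: a :: q)) ∧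
    (∀ p v q, f (p ++ v :: v :: q) = 0) ∧ (∀ w, N < w.length → f w = 0)}
  add_mem' := by
    rintro f g ⟨h1, h2, h3⟩ ⟨k1, k2, k3⟩
    refine ⟨fun p a b q h => ?_, fun p v q => ?_, fun w h => ?_⟩
    · simp [h1 p a b q h, k1 p a b q h]
    · simp [h2, k2]
    · simp [h3 w h, k3 w h]
  zero_mem' := by simp
  smul_mem' := by
    rintro c f ⟨h1, h2, h3⟩
    refine ⟨fun p a b q h => ?_, fun p v q => ?_, fun w h => ?_⟩
    · simp [h1 p a b q h]
    · simp [h2]
    · simp [h3 w h]

/-- the shift operators -/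
def Dop (N : ℕ) (v : V) : Module.End ℤ (Mod Γ N) where
  toFun f := ⟨fun w => f.1 (w ++ [v]), by
    obtain ⟨f, h1, h2, h3⟩ := f
    refine ⟨fun p a b q h => ?_, fun p u q => ?_, fun w h => ?_⟩
    · simpa using h1 p a b (q ++ [v]) h
    · simpa using h2 p u (q ++ [v])
    · exact h3 _ (by simp; omega)⟩
  map_add' f g := rfl
  map_smul' c f := rfl

@[simp] theorem Dop_apply (N : ℕ) (v : V) (f : Mod Γ N) (w : List V) :
    (Dop Γ N v f).1 w = f.1 (w ++ [v]) := rfl

theorem Dop_sq (N : ℕ) (v : V) : Dop Γ N v * Dop Γ N v = 0 := by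
  ext f w
  have := f.2.2.1 w v []
  simpa using this

theorem Dop_comm (N : ℕ) {a b : V} (h : Γ.Adj a b) :
    Dop Γ N a * Dop Γ N b = Dop Γ N b * Dop Γ N a := by
  ext f w
  have := f.2.1 w a b [] h
  simpa using this

/-- the unit attached to a generator -/
def gen (N : ℕ) (v : V) : (Module.End ℤ (Mod Γ N))ˣ where
  val := 1 + Dop Γ N v
  inv := 1 - Dop Γ N v
  val_inv := by
    rw [add_mul, mul_sub, mul_sub, Dop_sq]; simp
  inv_val := by
    rw [sub_mul, mul_add, mul_add, Dop_sq]; simp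

theorem gen_rel (N : ℕ) : ∀ r ∈ rels Γ, FreeGroup.lift (gen Γ N) r = 1 := by
  rintro r ⟨s, t, hst, rfl⟩
  simp only [map_mul, map_inv, FreeGroup.lift_apply_of]
  apply commutatorElement_eq_one_iff_commute.mpr
  apply Units.ext
  show (1 + Dop Γ N s) * (1 + Dop Γ N t) = (1 + Dop Γ N t) * (1 + Dop Γ N s)
  rw [add_mul, mul_add, mul_add, add_mul, mul_add, mul_add, Dop_comm Γ N hst]
  simp only [one_mul, mul_one]
  abel

/-- the unipotent representation -/
def mu (N : ℕ) : RAAG Γ →* (Module.End ℤ (Mod Γ N))ˣ := PresentedGroup.toGroup (gen_rel Γ N)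

theorem mu_of (N : ℕ) (v : V) : mu Γ N (PresentedGroup.of v) = gen Γ N v :=
  PresentedGroup.toGroup.of _

theorem gen_zpow (N : ℕ) (v : V) (e : ℤ) :
    ((gen Γ N v ^ e : (Module.End ℤ (Mod Γ N))ˣ) : Module.End ℤ (Mod Γ N)) =
      1 + e • Dop Γ N v := by
  induction e using Int.induction_on with
  | zero => simp
  | succ i ih =>
    rw [zpow_add_one, Units.val_mul, ih]
    show (1 + (i : ℤ) • Dop Γ N v) * (1 + Dop Γ N v) = _
    rw [add_mul, mul_add, mul_add, smul_mul_assoc, smul_mul_assoc, Dop_sq, add_smul]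
    simp only [one_mul, mul_one, smul_zero, add_zero, one_smul]
    abel
  | pred i ih =>
    rw [zpow_sub_one, Units.val_mul, ih]
    show (1 + (-(i : ℤ)) • Dop Γ N v) * (1 - Dop Γ N v) = _
    rw [add_mul, mul_sub, mul_sub, smul_mul_assoc, smul_mul_assoc, Dop_sq, sub_smul]
    simp only [one_mul, mul_one, smul_zero, sub_zero, one_smul]
    abel

theorem mu_eval (N : ℕ) (l : List (V × ℤ)) : ∀ (f : Mod Γ N) (w : List V),
    (∀ u : List V, u.length < l.length + w.length → f.1 u = 0) →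
    ((mu Γ N (sprod Γ l) : Module.End ℤ (Mod Γ N)) f).1 w =
      (l.map Prod.snd).prod * f.1 (w ++ l.map Prod.fst) := by
  induction l with
  | nil => intro f w _; simp
  | cons s l ih =>
    intro f w hf
    rw [sprod_cons, map_mul, map_zpow, mu_of, Units.val_mul, gen_zpow]
    have h1 := ih f w (fun u hu => hf u (by simp; omega))
    have h2 := ih f (w ++ [s.1]) (fun u hu => hf u (by simp at hu ⊢; omega))
    have h3 : f.1 (w ++ l.map Prod.fst) = 0 := hf _ (by simp; omega)
    rw [h3, mul_zero] at h1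
    simp only [Module.End.mul_apply, LinearMap.add_apply, Module.End.one_apply,
      LinearMap.smul_apply, Submodule.coe_add, Submodule.coe_smul, Pi.add_apply, Pi.smul_apply,
      Dop_apply, h1, h2]
    simp [mul_assoc]

open Classical in
/-- the test function: indicator of good words of length `N` -/
noncomputable def testf (N : ℕ) : Mod Γ N :=
  ⟨fun w => if ¬ Bad Γ w ∧ w.length = N then 1 else 0, by
    refine ⟨fun p a b q h => ?_, fun p v q => ?_, fun w h => ?_⟩
    · have hs : Swap Γ (p ++ a :: b :: q) (p ++ b :: a :: q) := ⟨p, a, b, q, h, rfl, rfl⟩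
      have : Bad Γ (p ++ a :: b :: q) ↔ Bad Γ (p ++ b :: a :: q) :=
        ⟨bad_of_swap Γ (Swap.symm Γ hs), bad_of_swap Γ hs⟩
      simp [this]
    · have : Bad Γ (p ++ v :: v :: q) := ⟨p, v, q, Relation.ReflTransGen.refl⟩
      simp [this]
    · have : w.length ≠ N := by omega
      simp [this]⟩

theorem mu_sep (g : RAAG Γ) (hg : g ≠ 1) : ∃ N, mu Γ N g ≠ 1 := by
  obtain ⟨l, rfl, h0, hb⟩ := normal_form Γ g
  refine ⟨l.length, fun h => ?_⟩
  have hl : l.length ≠ 0 := by
    intro h'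
    rw [List.length_eq_zero_iff] at h'
    subst h'
    exact hg rfl
  have h1 := mu_eval Γ l.length l (testf Γ l.length) [] (fun u hu => by
    have : u.length ≠ l.length := by simp at hu; omega
    simp [testf, this])
  rw [h] at h1
  have h2 : (testf Γ l.length).1 [] = 0 := by
    simp [testf, hl.symm]
  have h3 : (testf Γ l.length).1 ([] ++ l.map Prod.fst) = 1 := by
    simp [testf, hb]
  rw [h3, mul_one] at h1
  have h4 : (l.map Prod.snd).prod = 0 := by
    rw [← h1]; simpa using h2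
  rw [List.prod_eq_zero_iff] at h4
  obtain ⟨s, hs, hs0⟩ := List.mem_map.mp h4
  exact h0 s hs hs0

/-- operators that lower the filtration -/
def Lowers (N : ℕ) (T : Module.End ℤ (Mod Γ N)) : Prop :=
  ∀ (j : ℕ) (f : Mod Γ N), (∀ w : List V, j + 1 ≤ w.length → f.1 w = 0) →
    ∀ w : List V, j ≤ w.length → (T f).1 w = 0

theorem lowers_mu (N : ℕ) (g : RAAG Γ) :
    Lowers Γ N ((mu Γ N g : Module.End ℤ (Mod Γ N)) - 1) := by
  obtain ⟨l, rfl⟩ := exists_sprod Γ g
  induction l with
  | nil => intro j f hf w hw; simp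
  | cons s l ih =>
    intro j f hf w hw
    rw [sprod_cons, map_mul, map_zpow, mu_of, Units.val_mul, gen_zpow]
    have h1 := ih j f hf w hw
    have h2 := ih j f hf (w ++ [s.1]) (by simp; omega)
    have h3 := hf (w ++ [s.1]) (by simp; omega)
    simp only [Module.End.mul_apply, LinearMap.add_apply, Module.End.one_apply,
      LinearMap.smul_apply, Submodule.coe_add, Submodule.coe_smul, Pi.add_apply, Pi.smul_apply,
      Dop_apply, LinearMap.sub_apply, Submodule.coe_sub, Pi.sub_apply] at h1 h2 ⊢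
    rw [h3, sub_zero] at h2
    rw [h2]
    simpa using h1

theorem nilpotent_of_lowers (N : ℕ) (T : Module.End ℤ (Mod Γ N)) (hT : Lowers Γ N T) :
    IsNilpotent T := by
  have key : ∀ k : ℕ, k ≤ N + 1 → ∀ (f : Mod Γ N) (w : List V), N + 1 - k ≤ w.length →
      ((T ^ k) f).1 w = 0 := by
    intro k
    induction k with
    | zero => intro _ f w hw; simpa using f.2.2.2 w (by omega)
    | succ k ih =>
      intro hk f w hw
      rw [pow_succ', Module.End.mul_apply]
      exact hT (N + 1 - (k + 1)) _ (fun u hu => ih (by omega) f u (by omega)) w hw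
  refine ⟨N + 1, ?_⟩
  ext f w
  simpa using key (N + 1) le_rfl f w (by omega)

end Raag

/-- In a ring, conjugation by a unipotent unit has its inverse in the span of its powers. -/
theorem unipotent_comm {R : Type} [Ring R] (a : Rˣ) (y c : R) (ha : IsNilpotent ((a : R) - 1))
    (h : ∀ n : ℕ, Commute c (((a⁻¹ ^ n : Rˣ) : R) * y * ((a ^ n : Rˣ) : R))) :
    Commute c ((a : R) * y * ((a⁻¹ : Rˣ) : R)) := by
  let φ : Module.End ℤ R := (LinearMap.mulLeft ℤ ((a⁻¹ : Rˣ) : R)) * (LinearMap.mulRight ℤ (a : R))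
  have hφ : ∀ s, φ s = ((a⁻¹ : Rˣ) : R) * (s * a) := fun s => rfl
  have hφn : ∀ (n : ℕ) s, (φ ^ n) s = ((a⁻¹ ^ n : Rˣ) : R) * s * ((a ^ n : Rˣ) : R) := by
    intro n
    induction n with
    | zero => intro s; simp
    | succ n ih =>
      intro s
      rw [pow_succ', Module.End.mul_apply, ih, hφ, pow_succ' a⁻¹, pow_succ a]
      simp [mul_assoc]
  have hnil : IsNilpotent (1 - φ) := by
    have e1 : 1 - φ = (LinearMap.mulLeft ℤ ((a⁻¹ : Rˣ) : R)) *
        (LinearMap.mulLeft ℤ ((a : R) - 1) - LinearMap.mulRight ℤ ((a : R) - 1)) := by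
      ext s
      simp [hφ, mul_sub, sub_mul, ← mul_assoc]
    rw [e1]
    have c1 : Commute (LinearMap.mulLeft ℤ ((a : R) - 1)) (LinearMap.mulRight ℤ ((a : R) - 1)) :=
      LinearMap.commute_mulLeft_right _ _
    have n1 : IsNilpotent (LinearMap.mulLeft ℤ ((a : R) - 1)) := by
      rwa [LinearMap.isNilpotent_mulLeft_iff]
    have n2 : IsNilpotent (LinearMap.mulRight ℤ ((a : R) - 1)) := by
      rwa [LinearMap.isNilpotent_mulRight_iff]
    refine Commute.isNilpotent_mul_left ?_ (c1.isNilpotent_sub n1 n2)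
    ext s
    simp [mul_sub, sub_mul, ← mul_assoc]
  obtain ⟨M, hM⟩ := hnil
  let W : Submodule ℤ R :=
    { carrier := {s | ∀ n : ℕ, Commute c ((φ ^ n) s)}
      add_mem' := fun {s t} hs ht n => by rw [map_add]; exact (hs n).add_right (ht n)
      zero_mem' := fun n => by simp
      smul_mem' := fun k s hs n => by rw [map_smul]; exact (hs n).smul_right k }
  have hW : ∀ s ∈ W, (1 - φ) s ∈ W := by
    intro s hs
    have : φ s ∈ W := fun n => by
      have := hs (n + 1)
      rwa [pow_succ, Module.End.mul_apply] at this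
    simpa using W.sub_mem hs this
  have hWn : ∀ (j : ℕ), ∀ s ∈ W, ((1 - φ) ^ j) s ∈ W := by
    intro j
    induction j with
    | zero => intro s hs; simpa using hs
    | succ j ih => intro s hs; rw [pow_succ', Module.End.mul_apply]; exact hW _ (ih s hs)
  have hy : y ∈ W := fun n => by rw [hφn]; exact h n
  have hq : (∑ j ∈ Finset.range M, (1 - φ) ^ j) y ∈ W := by
    rw [LinearMap.sum_apply]
    exact W.sum_mem (fun j _ => hWn j y hy)
  have hg : φ * (∑ j ∈ Finset.range M, (1 - φ) ^ j) = 1 := by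
    have := mul_neg_geom_sum (1 - φ) M
    rw [hM] at this
    simpa using this
  have h5 : φ ((∑ j ∈ Finset.range M, (1 - φ) ^ j) y) = y := by
    rw [← Module.End.mul_apply, hg]; rfl
  have h6 : (∑ j ∈ Finset.range M, (1 - φ) ^ j) y = (a : R) * y * ((a⁻¹ : Rˣ) : R) := by
    conv_rhs => rw [← h5, hφ]
    simp [mul_assoc]
  have := hq 0
  rwa [pow_zero, Module.End.one_apply, h6] at this

theorem raag_backward {V : Type} (Γ : SimpleGraph V) (x z t : RAAG Γ)
    (h : ∀ n : ℕ, Commute z (t⁻¹ ^ n * x * t ^ n)) : Commute z (t * x * t⁻¹) := by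
  by_contra hc
  have hne : z * (t * x * t⁻¹) * z⁻¹ * (t * x * t⁻¹)⁻¹ ≠ 1 := fun h' =>
    hc (commutatorElement_eq_one_iff_commute.mp h')
  obtain ⟨N, hN⟩ := mu_sep Γ _ hne
  apply hN
  have h1 := unipotent_comm (mu Γ N t) (mu Γ N x : Module.End ℤ (Mod Γ N))
    (mu Γ N z : Module.End ℤ (Mod Γ N)) (nilpotent_of_lowers Γ N _ (lowers_mu Γ N t))
    (fun n => by
      have := ((h n).map (mu Γ N)).units_val
      simpa using this)
  have h2 : Commute (mu Γ N z) (mu Γ N (t * x * t⁻¹)) := by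
    apply Commute.units_of_val
    simpa using h1
  have h3 := commutatorElement_eq_one_iff_commute.mpr h2
  rw [map_mul, map_mul, map_inv, map_inv, map_mul (mu Γ N) z]
  exact h3

end Pool.Agent.Lib.MP_7ddd63_al
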