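import Mathlib
import Pool.Agent.Lib.MP_7ddd63_al.Bullet

/-!
The Squier complex of `⟨a, b, p | a = ap, a = app, b = pb, b = ppb⟩` at the base word `ab`.
Letters: `a = 0`, `b = 1`, `p = 2`.
-/

set_option autoImplicit false

namespace Pool.Agent.Lib.MP_7ddd63_al

abbrev Wd := List (Fin 3)
abbrev E := Wd × (Wd × Wd) × Wd × Bool

def RR : Set (Wd × Wd) := {([0], [0, 2]), ([0], [0, 2, 2]), ([1], [2, 1]), ([1], [2, 2, 1])}

def src (e : E) : Wd := e.1 ++ (if e.2.2.2 then e.2.1.1 else e.2.1.2) ++ e.2.2.1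
def tgt (e : E) : Wd := e.1 ++ (if e.2.2.2 then e.2.1.2 else e.2.1.1) ++ e.2.2.1

def path (l : List E) : Prop := (∀ s ∈ l, s.2.1 ∈ RR) ∧
  ∀ (i : ℕ) (s t : E), l[i]? = some s → l[i+1]? = some t → tgt s = src t

def loop (l : List E) : Prop :=
  path l ∧ (∀ s ∈ l.head?, src s = [0, 1]) ∧ (∀ s ∈ l.getLast?, tgt s = [0, 1])

def Mv (a b : List E) : Prop :=
  (∃ (p q : List E) (x u v y : Wd) (c : Bool),
      a = p ++ q ∧ b = p ++ [(x, (u, v), y, c), (x, (u, v), y, !c)] ++ q) ∨
  (∃ (p q : List E) (x u₁ v₁ y u₂ v₂ z : Wd),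
      a = p ++ [(x, (u₁, v₁), y ++ u₂ ++ z, true), (x ++ v₁ ++ y, (u₂, v₂), z, true)] ++ q ∧
      b = p ++ [(x ++ u₁ ++ y, (u₂, v₂), z, true), (x, (u₁, v₁), y ++ v₂ ++ z, true)] ++ q)

def move (a b : List E) : Prop := path a ∧ path b ∧ Mv a b

/-- paths with end points -/
inductive Pth : Wd → List E → Wd → Prop
  | nil (u : Wd) : Pth u [] u
  | cons {u v : Wd} {e : E} {l : List E} :
      e.2.1 ∈ RR → src e = u → Pth (tgt e) l v → Pth u (e :: l) v

theorem path_nil : path [] := by simp [path]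

theorem path_cons (e : E) (l : List E) :
    path (e :: l) ↔ e.2.1 ∈ RR ∧ path l ∧ ∀ s ∈ l.head?, tgt e = src s := by
  constructor
  · rintro ⟨h1, h2⟩
    refine ⟨h1 e (by simp), ⟨fun s hs => h1 s (by simp [hs]), fun i s t hs ht => ?_⟩, ?_⟩
    · exact h2 (i + 1) s t (by simpa using hs) (by simpa using ht)
    · intro s hs
      refine h2 0 e s (by simp) ?_
      cases l with
      | nil => simp at hs
      | cons a l => simpa using hs
  · rintro ⟨h1, ⟨h2, h3⟩, h4⟩
    refine ⟨fun s hs => ?_, fun i s t hs ht => ?_⟩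
    · rcases List.mem_cons.mp hs with rfl | hs
      · exact h1
      · exact h2 s hs
    · cases i with
      | zero =>
        have : e = s := by simpa using hs
        subst this
        apply h4
        cases l with
        | nil => simp at ht
        | cons a l => simpa using ht
      | succ i => exact h3 i s t (by simpa using hs) (by simpa using ht)

theorem pth_iff (l : List E) : ∀ u v : Wd, Pth u l v ↔
    path l ∧ (∀ s ∈ l.head?, src s = u) ∧ (∀ s ∈ l.getLast?, tgt s = v) ∧ (l = [] → u = v) := by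
  induction l with
  | nil =>
    intro u v
    constructor
    · intro h; cases h; simp [path_nil]
    · rintro ⟨_, _, _, h⟩; rw [h rfl]; exact Pth.nil _
  | cons e l ih =>
    intro u v
    constructor
    · intro h
      cases h with
      | cons h1 h2 h3 =>
        obtain ⟨k1, k2, k3, k4⟩ := (ih _ _).mp h3
        refine ⟨(path_cons e l).mpr ⟨h1, k1, fun s hs => (k2 s hs).symm⟩, by simpa using h2, ?_,
          by simp⟩
        cases l with
        | nil => simpa using k4 rfl
        | cons a l => simpa using k3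
    · rintro ⟨k1, k2, k3, _⟩
      obtain ⟨h1, h2, h3⟩ := (path_cons e l).mp k1
      refine Pth.cons h1 (k2 e (by simp)) ((ih _ _).mpr ⟨h2, fun s hs => (h3 s hs).symm, ?_, ?_⟩)
      · cases l with
        | nil => simp
        | cons a l => simpa using k3
      · rintro rfl
        exact k3 e (by simp)

theorem loop_iff (l : List E) : loop l ↔ Pth [0, 1] l [0, 1] := by
  rw [pth_iff]; simp [loop]

theorem Pth.path {u v : Wd} {l : List E} (h : Pth u l v) : path l := ((pth_iff l u v).mp h).1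

theorem Pth.append {u v w : Wd} {l l' : List E} (h : Pth u l v) (h' : Pth v l' w) :
    Pth u (l ++ l') w := by
  induction h with
  | nil => simpa using h'
  | cons h1 h2 _ ih => exact Pth.cons h1 h2 (ih h')

theorem Pth.single {e : E} (h : e.2.1 ∈ RR) : Pth (src e) [e] (tgt e) :=
  Pth.cons h rfl (Pth.nil _)

/-- the reverse edge -/
def flipE (e : E) : E := (e.1, e.2.1, e.2.2.1, !e.2.2.2)

@[simp] theorem src_flip (e : E) : src (flipE e) = tgt e := by
  obtain ⟨x, ⟨u, v⟩, y, c⟩ := e; cases c <;> simp [src, tgt, flipE]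
@[simp] theorem tgt_flip (e : E) : tgt (flipE e) = src e := by
  obtain ⟨x, ⟨u, v⟩, y, c⟩ := e; cases c <;> simp [src, tgt, flipE]
@[simp] theorem flip_flip (e : E) : flipE (flipE e) = e := by
  obtain ⟨x, ⟨u, v⟩, y, c⟩ := e; simp [flipE]

/-- the reverse path -/
def rev (l : List E) : List E := (l.map flipE).reverse

@[simp] theorem rev_nil : rev [] = [] := rfl
@[simp] theorem rev_cons (e : E) (l : List E) : rev (e :: l) = rev l ++ [flipE e] := by simp [rev]
@[simp] theorem rev_append (l l' : List E) : rev (l ++ l') = rev l' ++ rev l := by simp [rev]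
@[simp] theorem rev_rev (l : List E) : rev (rev l) = l := by
  induction l with
  | nil => rfl
  | cons e l ih => simp [ih]

theorem Pth.rev {u v : Wd} {l : List E} (h : Pth u l v) : Pth v (rev l) u := by
  induction h with
  | nil => exact Pth.nil _
  | @cons u v e l h1 h2 _ ih =>
    rw [rev_cons]
    refine ih.append ?_
    have := Pth.single (e := flipE e) h1
    rwa [src_flip, tgt_flip, h2] at this

theorem Mv.whisker {a b : List E} (h : Mv a b) (c d : List E) : Mv (c ++ a ++ d) (c ++ b ++ d) := by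
  rcases h with ⟨p, q, x, u, v, y, s, rfl, rfl⟩ | ⟨p, q, x, u₁, v₁, y, u₂, v₂, z, rfl, rfl⟩
  · exact Or.inl ⟨c ++ p, q ++ d, x, u, v, y, s, by simp, by simp⟩
  · exact Or.inr ⟨c ++ p, q ++ d, x, u₁, v₁, y, u₂, v₂, z, by simp, by simp⟩

/-- homotopy of paths with fixed end points -/
def Hty (u v : Wd) : List E → List E → Prop :=
  Relation.EqvGen (fun a b => Pth u a v ∧ Pth u b v ∧ Mv a b)

theorem Hty.refl (u v : Wd) (a : List E) : Hty u v a a := Relation.EqvGen.refl _
theorem Hty.symm {u v : Wd} {a b : List E} (h : Hty u v a b) : Hty u v b a :=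
  Relation.EqvGen.symm _ _ h
theorem Hty.trans {u v : Wd} {a b c : List E} (h : Hty u v a b) (h' : Hty u v b c) :
    Hty u v a c := Relation.EqvGen.trans _ _ _ h h'

theorem Hty.whisker {u v u' v' : Wd} {a b c d : List E} (h : Hty u v a b) (hc : Pth u' c u)
    (hd : Pth v d v') : Hty u' v' (c ++ a ++ d) (c ++ b ++ d) := by
  induction h with
  | rel a b h =>
    exact Relation.EqvGen.rel _ _
      ⟨(hc.append h.1).append hd, (hc.append h.2.1).append hd, h.2.2.whisker c d⟩
  | refl => exact Hty.refl _ _ _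
  | symm _ _ _ ih => exact ih.symm
  | trans _ _ _ _ _ ih1 ih2 => exact ih1.trans ih2

theorem Hty.quot {u v : Wd} {a b : List E} (h : Hty u v a b) :
    Quot.mk move a = Quot.mk move b := by
  induction h with
  | rel a b h => exact Quot.sound ⟨h.1.path, h.2.1.path, h.2.2⟩
  | refl => rfl
  | symm _ _ _ ih => exact ih.symm
  | trans _ _ _ _ _ ih1 ih2 => exact ih1.trans ih2

theorem Hty.cancel {u v : Wd} {l : List E} (h : Pth u l v) : Hty u u (l ++ rev l) [] := by
  induction h with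
  | nil => exact Hty.refl _ _ _
  | @cons u v e l h1 h2 h3 ih =>
    have he : Pth u [e] (tgt e) := h2 ▸ Pth.single h1
    have he' : Pth (tgt e) [flipE e] u := by simpa using he.rev
    have k1 := ih.whisker he he'
    have k2 : Hty u u [] ([e] ++ [] ++ [flipE e]) := by
      refine Relation.EqvGen.rel _ _ ⟨Pth.nil _, by simpa using he.append he', Or.inl ?_⟩
      obtain ⟨x, ⟨a, b⟩, y, c⟩ := e
      exact ⟨[], [], x, a, b, y, c, rfl, rfl⟩
    have k3 := k1.trans k2.symm
    simpa using k3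

theorem Hty.cancel' {u v : Wd} {l : List E} (h : Pth u l v) : Hty v v (rev l ++ l) [] := by
  simpa using Hty.cancel h.rev

/-- based loops -/
def Lp : Type := {l : List E // Pth [0, 1] l [0, 1]}

instance lpSetoid : Setoid Lp where
  r a b := Hty [0, 1] [0, 1] a.1 b.1
  iseqv := ⟨fun _ => Hty.refl _ _ _, Hty.symm, Hty.trans⟩

/-- the diagram group -/
def DG : Type := Quotient lpSetoid

def mkD (l : List E) (h : Pth [0, 1] l [0, 1]) : DG := Quotient.mk lpSetoid ⟨l, h⟩

theorem mkD_eq {l l' : List E} {h : Pth [0, 1] l [0, 1]} {h' : Pth [0, 1] l' [0, 1]}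
    (k : Hty [0, 1] [0, 1] l l') : mkD l h = mkD l' h' := Quotient.sound k

theorem mkD_exact {l l' : List E} {h : Pth [0, 1] l [0, 1]} {h' : Pth [0, 1] l' [0, 1]}
    (k : mkD l h = mkD l' h') : Hty [0, 1] [0, 1] l l' := Quotient.exact k

theorem DG.ind (g : DG) : ∃ l h, g = mkD l h := by
  induction g using Quotient.inductionOn with
  | h a => exact ⟨a.1, a.2, rfl⟩

def mulD : DG → DG → DG :=
  Quotient.map₂ (fun a b : Lp => (⟨a.1 ++ b.1, a.2.append b.2⟩ : Lp)) (by
    intro a a' ha b b' hb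
    have h1 := Hty.whisker ha (Pth.nil _) b.2
    have h2 := Hty.whisker hb a'.2 (Pth.nil _)
    simp only [List.nil_append, List.append_nil] at h1 h2
    exact h1.trans h2)

instance : Monoid DG where
  mul := mulD
  one := mkD [] (Pth.nil _)
  mul_assoc a b c := by
    obtain ⟨a, ha, rfl⟩ := a.ind
    obtain ⟨b, hb, rfl⟩ := b.ind
    obtain ⟨c, hc, rfl⟩ := c.ind
    exact Quotient.sound (by
      show Hty _ _ (a ++ b ++ c) (a ++ (b ++ c))
      rw [List.append_assoc]; exact Hty.refl _ _ _)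
  one_mul a := by
    obtain ⟨a, ha, rfl⟩ := a.ind
    exact Quotient.sound (Hty.refl _ _ _)
  mul_one a := by
    obtain ⟨a, ha, rfl⟩ := a.ind
    exact Quotient.sound (by
      show Hty _ _ (a ++ []) a
      rw [List.append_nil]; exact Hty.refl _ _ _)

theorem mkD_mul (l l' : List E) (h : Pth [0, 1] l [0, 1]) (h' : Pth [0, 1] l' [0, 1]) :
    mkD l h * mkD l' h' = mkD (l ++ l') (h.append h') := rfl

theorem mkD_one : (1 : DG) = mkD [] (Pth.nil _) := rfl

noncomputable instance : Group DG := groupOfIsUnit (fun g => by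
  obtain ⟨l, h, rfl⟩ := g.ind
  refine ⟨⟨mkD l h, mkD (rev l) h.rev, ?_, ?_⟩, rfl⟩
  · rw [mkD_mul, mkD_one]; exact mkD_eq (Hty.cancel h)
  · rw [mkD_mul, mkD_one]; exact mkD_eq (Hty.cancel' h))

/-- the words in the class of the base word -/
def W (n : ℕ) : Wd := 0 :: (List.replicate n 2 ++ [1])

theorem W_zero : W 0 = [0, 1] := rfl

theorem W_inj {m n : ℕ} (h : W m = W n) : m = n := by
  have := congrArg List.length h
  simpa [W] using this

theorem splitA {x y : Wd} {n : ℕ} (h : x ++ 0 :: y = W n) :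
    x = [] ∧ y = List.replicate n 2 ++ [1] := by
  cases x with
  | nil => simpa [W] using h
  | cons c x =>
    exfalso
    have h1 : x ++ 0 :: y = List.replicate n 2 ++ [1] := by
      simp only [W, List.cons_append, List.cons.injEq] at h; exact h.2
    have h2 : (0 : Fin 3) ∈ List.replicate n (2 : Fin 3) ++ [1] := by rw [← h1]; simp
    simp [List.mem_replicate] at h2

theorem splitB {x y : Wd} {n : ℕ} (h : x ++ 1 :: y = W n) :
    y = [] ∧ x = 0 :: List.replicate n 2 := by
  rcases List.eq_nil_or_concat y with rfl | ⟨y', c, rfl⟩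
  · refine ⟨rfl, ?_⟩
    have h1 : x ++ [1] = (0 :: List.replicate n 2) ++ [1] := by simpa [W] using h
    exact List.append_cancel_right h1
  · exfalso
    have h1 : (x ++ 1 :: y') ++ [c] = (0 :: List.replicate n 2) ++ [1] := by simpa [W] using h
    have h2 := List.append_inj_left' h1 rfl
    have h3 : (1 : Fin 3) ∈ (0 : Fin 3) :: List.replicate n (2 : Fin 3) := by rw [← h2]; simp
    simp [List.mem_replicate] at h3

def eL (k m : ℕ) (c : Bool) : E :=
  ([], ([0], 0 :: List.replicate k 2), List.replicate m 2 ++ [1], c)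
def eR (k m : ℕ) (c : Bool) : E :=
  (0 :: List.replicate m 2, ([1], List.replicate k 2 ++ [1]), [], c)

theorem src_eL (k m : ℕ) : src (eL k m true) = W m := by simp [src, eL, W]
theorem tgt_eL (k m : ℕ) : tgt (eL k m true) = W (m + k) := by
  simp [tgt, eL, W, ← List.append_assoc, List.replicate_append_replicate, add_comm]
theorem src_eR (k m : ℕ) : src (eR k m true) = W m := by simp [src, eR, W]
theorem tgt_eR (k m : ℕ) : tgt (eR k m true) = W (m + k) := by
  simp [tgt, eR, W, ← List.append_assoc, List.replicate_append_replicate]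
theorem flip_eL (k m : ℕ) : flipE (eL k m true) = eL k m false := rfl
theorem flip_eR (k m : ℕ) : flipE (eR k m true) = eR k m false := rfl

theorem mem_RR (r : Wd × Wd) : r ∈ RR ↔ ∃ k, (k = 1 ∨ k = 2) ∧
    (r = ([0], 0 :: List.replicate k 2) ∨ r = ([1], List.replicate k 2 ++ [1])) := by
  simp only [RR, Set.mem_insert_iff, Set.mem_singleton_iff]
  constructor
  · rintro (rfl | rfl | rfl | rfl)
    · exact ⟨1, Or.inl rfl, Or.inl rfl⟩
    · exact ⟨2, Or.inr rfl, Or.inl rfl⟩
    · exact ⟨1, Or.inl rfl, Or.inr rfl⟩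
    · exact ⟨2, Or.inr rfl, Or.inr rfl⟩
  · rintro ⟨k, rfl | rfl, rfl | rfl⟩ <;> simp

theorem eL_mem {k : ℕ} (hk : k = 1 ∨ k = 2) (m : ℕ) (c : Bool) : (eL k m c).2.1 ∈ RR :=
  (mem_RR _).mpr ⟨k, hk, Or.inl rfl⟩
theorem eR_mem {k : ℕ} (hk : k = 1 ∨ k = 2) (m : ℕ) (c : Bool) : (eR k m c).2.1 ∈ RR :=
  (mem_RR _).mpr ⟨k, hk, Or.inr rfl⟩

theorem repl_cancelL {k n : ℕ} {y : Wd}
    (h : List.replicate k 2 ++ y = List.replicate n 2 ++ [1]) :
    ∃ m, y = List.replicate m 2 ++ [1] := by
  induction k generalizing n with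
  | zero => exact ⟨n, by simpa using h⟩
  | succ k ih =>
    cases n with
    | zero => simp [List.replicate_succ] at h
    | succ n =>
      simp only [List.replicate_succ, List.cons_append, List.cons.injEq, true_and] at h
      exact ih h

theorem repl_cancelR {k n : ℕ} {x : Wd}
    (h : x ++ List.replicate k 2 = 0 :: List.replicate n 2) :
    ∃ m, x = 0 :: List.replicate m 2 := by
  induction k generalizing n with
  | zero => exact ⟨n, by simpa using h⟩
  | succ k ih =>
    cases n with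
    | zero =>
      have h1 : (2 : Fin 3) ∈ x ++ List.replicate (k + 1) (2 : Fin 3) := by simp
      rw [h] at h1
      simp at h1
    | succ n =>
      rw [List.replicate_succ', List.replicate_succ', ← List.append_assoc,
        ← List.cons_append] at h
      exact ih (List.append_cancel_right h)

theorem classify_pos {x y : Wd} {r : Wd × Wd} (hr : r ∈ RR) (c : Bool)
    (h : (∃ n, x ++ r.1 ++ y = W n) ∨ (∃ n, x ++ r.2 ++ y = W n)) :
    ∃ k m, (k = 1 ∨ k = 2) ∧ ((x, r, y, c) = eL k m c ∨ (x, r, y, c) = eR k m c) := by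
  obtain ⟨k, hk, rfl | rfl⟩ := (mem_RR _).mp hr
  · rcases h with ⟨n, h⟩ | ⟨n, h⟩
    · obtain ⟨rfl, rfl⟩ := splitA (x := x) (y := y) (n := n) (by simpa using h)
      exact ⟨k, n, hk, Or.inl rfl⟩
    · obtain ⟨rfl, h2⟩ := splitA (x := x) (y := List.replicate k 2 ++ y) (n := n)
        (by simpa using h)
      obtain ⟨m, rfl⟩ := repl_cancelL h2
      exact ⟨k, m, hk, Or.inl rfl⟩
  · rcases h with ⟨n, h⟩ | ⟨n, h⟩
    · obtain ⟨rfl, rfl⟩ := splitB (x := x) (y := y) (n := n) (by simpa using h)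
      exact ⟨k, n, hk, Or.inr rfl⟩
    · obtain ⟨rfl, h2⟩ := splitB (x := x ++ List.replicate k 2) (y := y) (n := n)
        (by simpa using h)
      obtain ⟨m, rfl⟩ := repl_cancelR h2
      exact ⟨k, m, hk, Or.inr rfl⟩

theorem classify {e : E} (he : e.2.1 ∈ RR) {n : ℕ} (h : src e = W n) :
    ∃ k m c, (k = 1 ∨ k = 2) ∧ (e = eL k m c ∨ e = eR k m c) := by
  obtain ⟨x, r, y, c⟩ := e
  have : (∃ n, x ++ r.1 ++ y = W n) ∨ (∃ n, x ++ r.2 ++ y = W n) := by
    cases c
    · exact Or.inr ⟨n, by simpa [src] using h⟩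
    · exact Or.inl ⟨n, by simpa [src] using h⟩
  obtain ⟨k, m, hk, h⟩ := classify_pos he c this
  exact ⟨k, m, c, hk, h⟩

theorem isW_iff {x y : Wd} {r : Wd × Wd} (hr : r ∈ RR) :
    (∃ n, x ++ r.1 ++ y = W n) ↔ (∃ n, x ++ r.2 ++ y = W n) := by
  have key : (∃ n, x ++ r.1 ++ y = W n) ∨ (∃ n, x ++ r.2 ++ y = W n) →
      (∃ n, x ++ r.1 ++ y = W n) ∧ (∃ n, x ++ r.2 ++ y = W n) := by
    intro h
    obtain ⟨k, m, _, h | h⟩ := classify_pos hr true h
    · have h1 := src_eL k m
      have h2 := tgt_eL k m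
      rw [← h] at h1 h2
      exact ⟨⟨m, by simpa [src] using h1⟩, ⟨m + k, by simpa [tgt] using h2⟩⟩
    · have h1 := src_eR k m
      have h2 := tgt_eR k m
      rw [← h] at h1 h2
      exact ⟨⟨m, by simpa [src] using h1⟩, ⟨m + k, by simpa [tgt] using h2⟩⟩
  exact ⟨fun h => (key (Or.inl h)).2, fun h => (key (Or.inr h)).1⟩

/-- values of the invariant -/
def vL (k m : ℕ) : GB := if k = 1 then 1 else tG⁻¹ ^ m * xG * tG ^ m
def vR (k : ℕ) : GB := if k = 1 then tG else zG * tG ^ 2

open Classical in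
noncomputable def psiP (x : Wd) (r : Wd × Wd) (y : Wd) : GB :=
  if ∃ n, x ++ r.1 ++ y = W n then
    (if r.1 = [0] then vL (r.2.length - 1) (y.length - 1) else vR (r.2.length - 1))
  else 1

noncomputable def psi (e : E) : GB :=
  if e.2.2.2 then psiP e.1 e.2.1 e.2.2.1 else (psiP e.1 e.2.1 e.2.2.1)⁻¹

noncomputable def Psi (l : List E) : GB := (l.map psi).prod

@[simp] theorem Psi_nil : Psi [] = 1 := rfl
@[simp] theorem Psi_cons (e : E) (l : List E) : Psi (e :: l) = psi e * Psi l := by simp [Psi]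
@[simp] theorem Psi_append (l l' : List E) : Psi (l ++ l') = Psi l * Psi l' := by simp [Psi]

theorem psi_flip (e : E) : psi (flipE e) = (psi e)⁻¹ := by
  obtain ⟨x, r, y, c⟩ := e
  cases c <;> simp [psi, flipE]

theorem psi_eL (k m : ℕ) : psi (eL k m true) = vL k m := by
  have : ∃ n, ([] : Wd) ++ [0] ++ (List.replicate m 2 ++ [1]) = W n := ⟨m, by simp [W]⟩
  simp only [psi, eL, psiP, if_true, if_pos this]
  simp

theorem psi_eR (k m : ℕ) : psi (eR k m true) = vR k := by
  have : ∃ n, (0 :: List.replicate m 2 : Wd) ++ [1] ++ [] = W n := ⟨m, by simp [W]⟩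
  simp only [psi, eR, psiP, if_true, if_pos this]
  simp

theorem v_square {k j : ℕ} (hj : j = 1 ∨ j = 2) (m : ℕ) :
    vL k m * vR j = vR j * vL k (m + j) := by
  by_cases hk : k = 1
  · simp [vL, hk]
  · rcases hj with rfl | rfl
    · simp only [vL, vR, if_neg hk, if_true]
      group
    · simp only [vL, vR, if_neg hk, if_neg (by decide : (2 : ℕ) ≠ 1)]
      rw [← mul_assoc, ← (G_comm m).eq]
      group

theorem square_form {x u₁ v₁ y u₂ v₂ z : Wd} (h1 : (u₁, v₁) ∈ RR) (h2 : (u₂, v₂) ∈ RR) {n : ℕ}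
    (h : x ++ u₁ ++ (y ++ u₂ ++ z) = W n) :
    ∃ k j, (k = 1 ∨ k = 2) ∧ (j = 1 ∨ j = 2) ∧ x = [] ∧ z = [] ∧ y = List.replicate n 2 ∧
      u₁ = [0] ∧ v₁ = 0 :: List.replicate k 2 ∧ u₂ = [1] ∧ v₂ = List.replicate j 2 ++ [1] := by
  obtain ⟨k, hk, e1 | e1⟩ := (mem_RR _).mp h1 <;> obtain ⟨j, hj, e2 | e2⟩ := (mem_RR _).mp h2 <;>
    simp only [Prod.mk.injEq] at e1 e2 <;> obtain ⟨rfl, rfl⟩ := e1 <;> obtain ⟨rfl, rfl⟩ := e2
  · exfalso
    have := (splitA (x := x ++ [0] ++ y) (y := z) (n := n) (by simpa using h)).1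
    simp at this
  · obtain ⟨rfl, _⟩ := splitA (x := x) (y := y ++ [1] ++ z) (n := n) (by simpa using h)
    obtain ⟨rfl, h4⟩ := splitB (x := 0 :: y) (y := z) (n := n) (by simpa using h)
    refine ⟨k, j, hk, hj, rfl, rfl, by simpa using h4, rfl, rfl, rfl, rfl⟩
  · exfalso
    have := (splitA (x := x ++ [1] ++ y) (y := z) (n := n) (by simpa using h)).1
    simp at this
  · exfalso
    have := (splitB (x := x) (y := y ++ [1] ++ z) (n := n) (by simpa using h)).1
    simp at this

theorem psi_square {x u₁ v₁ y u₂ v₂ z : Wd} (h1 : (u₁, v₁) ∈ RR) (h2 : (u₂, v₂) ∈ RR) :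
    psi (x, (u₁, v₁), y ++ u₂ ++ z, true) * psi (x ++ v₁ ++ y, (u₂, v₂), z, true) =
    psi (x ++ u₁ ++ y, (u₂, v₂), z, true) * psi (x, (u₁, v₁), y ++ v₂ ++ z, true) := by
  by_cases h : ∃ n, x ++ u₁ ++ (y ++ u₂ ++ z) = W n
  · obtain ⟨n, h⟩ := h
    obtain ⟨k, j, hk, hj, rfl, rfl, rfl, rfl, rfl, rfl, rfl⟩ := square_form h1 h2 h
    have a1 : (([] : Wd), (([0] : Wd), (0 :: List.replicate k 2 : Wd)),
        (List.replicate n 2 ++ [1] ++ [] : Wd), true) = eL k n true := by simp [eL]
    have a2 : (([] ++ (0 :: List.replicate k 2) ++ List.replicate n 2 : Wd),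
        (([1] : Wd), (List.replicate j 2 ++ [1] : Wd)), ([] : Wd), true) = eR j (n + k) true := by
      simp [eR, List.replicate_append_replicate, add_comm]
    have a3 : (([] ++ [0] ++ List.replicate n 2 : Wd),
        (([1] : Wd), (List.replicate j 2 ++ [1] : Wd)), ([] : Wd), true) = eR j n true := by
      simp [eR]
    have a4 : (([] : Wd), (([0] : Wd), (0 :: List.replicate k 2 : Wd)),
        (List.replicate n 2 ++ (List.replicate j 2 ++ [1]) ++ [] : Wd), true) =
        eL k (n + j) true := by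
      simp [eL, ← List.append_assoc, List.replicate_append_replicate]
    rw [a1, a2, a3, a4, psi_eL, psi_eL, psi_eR, psi_eR]
    exact v_square hj n
  · have b1 : ¬ ∃ n, x ++ v₁ ++ (y ++ u₂ ++ z) = W n := fun h' =>
      h ((isW_iff (x := x) (y := y ++ u₂ ++ z) h1).mpr h')
    have b2 : ¬ ∃ n, x ++ v₁ ++ y ++ u₂ ++ z = W n := by simpa using b1
    have b3 : ¬ ∃ n, x ++ u₁ ++ y ++ u₂ ++ z = W n := by simpa using h
    have b4 : ¬ ∃ n, x ++ u₁ ++ y ++ v₂ ++ z = W n := fun h' =>
      b3 ((isW_iff (x := x ++ u₁ ++ y) (y := z) h2).mpr h')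
    have b5 : ¬ ∃ n, x ++ u₁ ++ (y ++ v₂ ++ z) = W n := by simpa using b4
    simp only [psi, psiP, if_true, if_neg h, if_neg b2, if_neg b3, if_neg b5]

theorem Psi_Mv {a b : List E} (ha : path a) (h : Mv a b) : Psi a = Psi b := by
  rcases h with ⟨p, q, x, u, v, y, s, rfl, rfl⟩ | ⟨p, q, x, u₁, v₁, y, u₂, v₂, z, rfl, rfl⟩
  · have := psi_flip (x, (u, v), y, s)
    simp only [flipE] at this
    simp [this]
  · have h1 : (u₁, v₁) ∈ RR := ha.1 (x, (u₁, v₁), y ++ u₂ ++ z, true) (by simp)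
    have h2 : (u₂, v₂) ∈ RR := ha.1 (x ++ v₁ ++ y, (u₂, v₂), z, true) (by simp)
    simp only [Psi_append, Psi_cons, Psi_nil, mul_one]
    rw [psi_square h1 h2]

theorem Psi_quot {a b : List E} (h : Quot.mk move a = Quot.mk move b) : Psi a = Psi b := by
  have h' := Quot.eqvGen_exact h
  clear h
  induction h' with
  | rel a b h => exact Psi_Mv h.1 h.2.2
  | refl => rfl
  | symm _ _ _ ih => exact ih.symm
  | trans _ _ _ _ _ ih1 ih2 => exact ih1.trans ih2

/-- the invariant on the diagram group -/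
noncomputable def PsiD : DG →* GB where
  toFun := Quotient.lift (fun a : Lp => Psi a.1) (fun _ _ h => Psi_quot (Hty.quot h))
  map_one' := rfl
  map_mul' a b := by
    obtain ⟨a, ha, rfl⟩ := a.ind
    obtain ⟨b, hb, rfl⟩ := b.ind
    exact Psi_append a b

theorem PsiD_mk (l : List E) (h : Pth [0, 1] l [0, 1]) : PsiD (mkD l h) = Psi l := rfl

theorem pth_eL {k : ℕ} (hk : k = 1 ∨ k = 2) (m : ℕ) : Pth (W m) [eL k m true] (W (m + k)) := by
  have := Pth.single (eL_mem hk m true)
  rwa [src_eL, tgt_eL] at this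
theorem pth_eR {k : ℕ} (hk : k = 1 ∨ k = 2) (m : ℕ) : Pth (W m) [eR k m true] (W (m + k)) := by
  have := Pth.single (eR_mem hk m true)
  rwa [src_eR, tgt_eR] at this

/-- the spanning tree -/
def tau : ℕ → List E
  | 0 => []
  | n + 1 => tau n ++ [eL 1 n true]

theorem pth_tau (n : ℕ) : Pth [0, 1] (tau n) (W n) := by
  induction n with
  | zero => exact Pth.nil _
  | succ n ih => exact ih.append (pth_eL (Or.inl rfl) n)

theorem Psi_rev (l : List E) : Psi (rev l) = (Psi l)⁻¹ := by
  induction l with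
  | nil => simp
  | cons e l ih => simp [ih, psi_flip]

theorem Psi_tau (n : ℕ) : Psi (tau n) = 1 := by
  induction n with
  | zero => rfl
  | succ n ih => simp [tau, ih, psi_eL, vL]

open Classical in
/-- closing up a path with the tree -/
noncomputable def cl (m n : ℕ) (l : List E) : DG :=
  if h : Pth (W m) l (W n) then
    mkD (tau m ++ l ++ rev (tau n)) (((pth_tau m).append h).append (pth_tau n).rev)
  else 1

theorem cl_eq {m n : ℕ} {l : List E} (h : Pth (W m) l (W n)) :
    cl m n l = mkD (tau m ++ l ++ rev (tau n)) (((pth_tau m).append h).append (pth_tau n).rev) :=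
  dif_pos h

theorem cl_append {m n k : ℕ} {l l' : List E} (h : Pth (W m) l (W n)) (h' : Pth (W n) l' (W k)) :
    cl m k (l ++ l') = cl m n l * cl n k l' := by
  rw [cl_eq h, cl_eq h', cl_eq (h.append h'), mkD_mul]
  apply mkD_eq
  have := (Hty.cancel' (pth_tau n)).whisker ((pth_tau m).append h) (h'.append (pth_tau k).rev)
  simpa using this.symm

theorem cl_nil (m : ℕ) : cl m m [] = 1 := by
  rw [cl_eq (Pth.nil _), mkD_one]
  apply mkD_eq
  simpa using Hty.cancel (pth_tau m)

theorem cl_hty {m n : ℕ} {l l' : List E} (h : Pth (W m) l (W n)) (h' : Pth (W m) l' (W n))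
    (k : Hty (W m) (W n) l l') : cl m n l = cl m n l' := by
  rw [cl_eq h, cl_eq h']
  exact mkD_eq (k.whisker (pth_tau m) (pth_tau n).rev)

theorem cl_rev {m n : ℕ} {l : List E} (h : Pth (W m) l (W n)) :
    cl n m (rev l) = (cl m n l)⁻¹ := by
  rw [eq_inv_iff_mul_eq_one, ← cl_append h.rev h, cl_hty (h.rev.append h) (Pth.nil _)
    (Hty.cancel' h), cl_nil]

theorem PsiD_cl {m n : ℕ} {l : List E} (h : Pth (W m) l (W n)) : PsiD (cl m n l) = Psi l := by
  rw [cl_eq h, PsiD_mk]
  simp [Psi_rev, Psi_tau]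

noncomputable def AD (k m : ℕ) : DG := cl m (m + k) [eL k m true]
noncomputable def BD (k m : ℕ) : DG := cl m (m + k) [eR k m true]

theorem AD_one (m : ℕ) : AD 1 m = 1 := by
  rw [AD, cl_eq (pth_eL (Or.inl rfl) m), mkD_one]
  apply mkD_eq
  exact Hty.cancel (pth_tau (m + 1))

theorem AD_BD {k j : ℕ} (hk : k = 1 ∨ k = 2) (hj : j = 1 ∨ j = 2) (m : ℕ) :
    AD k m * BD j (m + k) = BD j m * AD k (m + j) := by
  have p1 := (pth_eL hk m).append (pth_eR hj (m + k))
  have p2 := (pth_eR hj m).append (pth_eL hk (m + j))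
  rw [AD, BD, BD, AD, ← cl_append (pth_eL hk m) (pth_eR hj (m + k)),
    ← cl_append (pth_eR hj m) (pth_eL hk (m + j))]
  have e : m + j + k = m + k + j := by omega
  rw [e] at p2 ⊢
  refine cl_hty p1 p2 (Relation.EqvGen.rel _ _ ⟨p1, p2, Or.inr ?_⟩)
  refine ⟨[], [], [], [0], 0 :: List.replicate k 2, List.replicate m 2, [1],
    List.replicate j 2 ++ [1], [], ?_, ?_⟩
  · simp [eL, eR, List.replicate_append_replicate, add_comm]
  · simp [eL, eR, ← List.append_assoc, List.replicate_append_replicate]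

theorem BD_const {j : ℕ} (hj : j = 1 ∨ j = 2) (m : ℕ) : BD j m = BD j 0 := by
  induction m with
  | zero => rfl
  | succ m ih =>
    have := AD_BD (Or.inl rfl) hj m
    rw [AD_one, AD_one, one_mul, mul_one] at this
    rw [this, ih]

noncomputable def tD : DG := BD 1 0
noncomputable def xD : DG := AD 2 0
noncomputable def zD : DG := BD 2 0 * tD⁻¹ ^ 2

theorem AD_two (m : ℕ) : AD 2 m = tD⁻¹ ^ m * xD * tD ^ m := by
  induction m with
  | zero => simp [xD]
  | succ m ih =>
    have := AD_BD (Or.inr rfl) (Or.inl rfl) m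
    rw [BD_const (Or.inl rfl), BD_const (Or.inl rfl) m, ih] at this
    change _ * tD = tD * _ at this
    rw [← inv_mul_eq_iff_eq_mul] at this
    rw [← this]
    group

theorem D_comm (m : ℕ) : Commute zD (tD⁻¹ ^ m * xD * tD ^ m) := by
  have := AD_BD (Or.inr rfl) (Or.inr rfl) m
  rw [BD_const (Or.inr rfl), BD_const (Or.inr rfl) m, AD_two, AD_two] at this
  have h2 : BD 2 0 = zD * tD ^ 2 := by simp [zD]
  rw [h2] at this
  show zD * _ = _ * zD
  calc zD * (tD⁻¹ ^ m * xD * tD ^ m)
      = (zD * tD ^ 2 * (tD⁻¹ ^ (m + 2) * xD * tD ^ (m + 2))) * tD⁻¹ ^ 2 := by group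
    _ = (tD⁻¹ ^ m * xD * tD ^ m * (zD * tD ^ 2)) * tD⁻¹ ^ 2 := by rw [this]
    _ = _ := by group

theorem PsiD_t : PsiD tD = tG := by
  rw [tD, BD, PsiD_cl (pth_eR (Or.inl rfl) 0)]; simp [psi_eR, vR]
theorem PsiD_x : PsiD xD = xG := by
  rw [xD, AD, PsiD_cl (pth_eL (Or.inr rfl) 0)]; simp [psi_eL, vL]
theorem PsiD_z : PsiD zD = zG := by
  rw [zD, map_mul, map_pow, map_inv, PsiD_t, BD, PsiD_cl (pth_eR (Or.inr rfl) 0)]
  simp [psi_eR, vR]

theorem D_not_comm : ¬ Commute zD (tD * xD * tD⁻¹) := by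
  intro h
  have := h.map PsiD
  rw [map_mul, map_mul, map_inv, PsiD_t, PsiD_x, PsiD_z] at this
  exact G_not_comm this

theorem PsiD_injective : Function.Injective PsiD := by
  obtain ⟨Θ, hx, ht, hz⟩ := G_lift xD tD zD D_comm
  have hA : ∀ k m, (k = 1 ∨ k = 2) → Θ (psi (eL k m true)) = AD k m := by
    rintro k m (rfl | rfl)
    · simp [psi_eL, vL, AD_one]
    · simp [psi_eL, vL, AD_two, hx, ht]
  have hB : ∀ k m, (k = 1 ∨ k = 2) → Θ (psi (eR k m true)) = BD k m := by
    rintro k m (rfl | rfl)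
    · rw [BD_const (Or.inl rfl)]; simp [psi_eR, vR, ht, tD]
    · rw [BD_const (Or.inr rfl)]; simp [psi_eR, vR, ht, hz, zD]
  have hE : ∀ (e : E) (m : ℕ), e.2.1 ∈ RR → src e = W m →
      ∃ n, tgt e = W n ∧ cl m n [e] = Θ (psi e) := by
    intro e m he hs
    obtain ⟨k, m', c, hk, rfl | rfl⟩ := classify he hs
    · cases c
      · rw [← flip_eL, src_flip, tgt_eL] at hs
        obtain rfl := W_inj hs
        refine ⟨m', by rw [← flip_eL, tgt_flip, src_eL], ?_⟩
        rw [← flip_eL, psi_flip, map_inv, hA k m' hk, AD, ← cl_rev (pth_eL hk m')]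
        rfl
      · rw [src_eL] at hs
        obtain rfl := W_inj hs
        exact ⟨m' + k, tgt_eL _ _, (hA k m' hk).symm⟩
    · cases c
      · rw [← flip_eR, src_flip, tgt_eR] at hs
        obtain rfl := W_inj hs
        refine ⟨m', by rw [← flip_eR, tgt_flip, src_eR], ?_⟩
        rw [← flip_eR, psi_flip, map_inv, hB k m' hk, BD, ← cl_rev (pth_eR hk m')]
        rfl
      · rw [src_eR] at hs
        obtain rfl := W_inj hs
        exact ⟨m' + k, tgt_eR _ _, (hB k m' hk).symm⟩
  have hP : ∀ (l : List E) (m n : ℕ), Pth (W m) l (W n) → cl m n l = Θ (Psi l) := by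
    intro l
    induction l with
    | nil =>
      intro m n h
      have : W m = W n := ((pth_iff _ _ _).mp h).2.2.2 rfl
      obtain rfl := W_inj this
      simp [cl_nil]
    | cons e l ih =>
      intro m n h
      cases h with
      | cons h1 h2 h3 =>
        obtain ⟨k, hk, hc⟩ := hE e m h1 h2
        rw [hk] at h3
        have p1 : Pth (W m) [e] (W k) := by
          have := Pth.single h1
          rwa [h2, hk] at this
        have := cl_append p1 h3
        rw [List.singleton_append] at this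
        rw [this, hc, ih k n h3, Psi_cons, map_mul]
  have hD : ∀ g : DG, Θ (PsiD g) = g := by
    intro g
    obtain ⟨l, h, rfl⟩ := g.ind
    rw [PsiD_mk, ← hP l 0 0 h, cl_eq (m := 0) (n := 0) h]
    apply mkD_eq
    simpa [tau] using Hty.refl _ _ _
  exact Function.LeftInverse.injective hD

theorem mkD_eq_iff (l l' : List E) (h : Pth [0, 1] l [0, 1]) (h' : Pth [0, 1] l' [0, 1]) :
    mkD l h = mkD l' h' ↔ Quot.mk move l = Quot.mk move l' := by
  constructor
  · intro k; exact (mkD_exact k).quot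
  · intro k
    apply PsiD_injective
    rw [PsiD_mk, PsiD_mk]
    exact Psi_quot k

end Pool.Agent.Lib.MP_7ddd63_al
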