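import Mathlib
import Pool.Agent.Lib.MP_7ddd63_al.Raag
import Pool.Agent.Lib.MP_7ddd63_al.Squier

set_option autoImplicit false

namespace Pool.Agent.Lib.MP_7ddd63_al

theorem no_raag (V : Type) (Γ : SimpleGraph V) (f : List E → RAAG Γ)
    (h1 : ∀ p q, loop p → loop q → f (p ++ q) = f p * f q)
    (h2 : ∀ p q, loop p → loop q → (f p = f q ↔ Quot.mk move p = Quot.mk move q)) : False := by
  let F0 : DG → RAAG Γ := Quotient.lift (fun a : Lp => f a.1) (fun a b h =>
    (h2 a.1 b.1 ((loop_iff _).mpr a.2) ((loop_iff _).mpr b.2)).mpr (Hty.quot h))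
  have hF0 : ∀ l h, F0 (mkD l h) = f l := fun _ _ => rfl
  let F : DG →* RAAG Γ := MonoidHom.mk' F0 (by
    intro a b
    obtain ⟨a, ha, rfl⟩ := a.ind
    obtain ⟨b, hb, rfl⟩ := b.ind
    rw [mkD_mul, hF0, hF0, hF0]
    exact h1 a b ((loop_iff _).mpr ha) ((loop_iff _).mpr hb))
  have hinj : Function.Injective F := by
    intro a b hab
    obtain ⟨a, ha, rfl⟩ := a.ind
    obtain ⟨b, hb, rfl⟩ := b.ind
    rw [mkD_eq_iff]
    exact (h2 a b ((loop_iff _).mpr ha) ((loop_iff _).mpr hb)).mp hab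
  have h3 := raag_backward Γ (F xD) (F zD) (F tD) (fun n => by
    simpa using (D_comm n).map F)
  apply D_not_comm
  apply hinj
  simpa using h3.eq

theorem no_wreath {K : Type} [Group K] {φ : K →* MulAut (Multiplicative (ℤ →₀ ℤ))}
    (g : SemidirectProduct (Multiplicative (ℤ →₀ ℤ)) K φ → List E)
    (h1 : ∀ a, loop (g a))
    (h2 : ∀ a b, Quot.mk move (g (a * b)) = Quot.mk move (g a ++ g b))
    (h3 : ∀ a b, Quot.mk move (g a) = Quot.mk move (g b) → a = b) : False := by
  let J : SemidirectProduct (Multiplicative (ℤ →₀ ℤ)) K φ →* DG :=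
    MonoidHom.mk' (fun a => mkD (g a) ((loop_iff _).mp (h1 a))) (by
      intro a b
      rw [mkD_mul, mkD_eq_iff]
      exact h2 a b)
  have hJ : Function.Injective J := fun a b hab =>
    h3 a b ((mkD_eq_iff _ _ _ _).mp hab)
  exact G_no_rank4 (PsiD.comp (J.comp SemidirectProduct.inl))
    (PsiD_injective.comp (hJ.comp SemidirectProduct.inl_injective))

end Pool.Agent.Lib.MP_7ddd63_al
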